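import Pool.Agent.Q227.CP.Base

/-!
# CP-AB: Abel summation for families
-/

set_option autoImplicit false

namespace Q227.CP

open MeasureTheory Filter Topology Set
open Pool.Agent.Q253.CP

theorem ii_exp {G : ℝ → ℝ} {s : ℝ} (h : IntegrableOn (fun u => G u * Real.exp (-(s * u))) (Ioi 0))
    {x y : ℝ} (hx : 0 ≤ x) (hy : 0 ≤ y) : IntervalIntegrable G volume x y := by
  have h1 : IntervalIntegrable (fun u => G u * Real.exp (-(s * u))) volume x y := by
    rw [intervalIntegrable_iff]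
    refine h.mono_set ?_
    intro u hu
    rw [uIoc, mem_Ioc] at hu
    exact lt_of_le_of_lt (le_min hx hy) hu.1
  have h2 : IntervalIntegrable (fun u => (G u * Real.exp (-(s * u))) * Real.exp (s * u)) volume x y :=
    h1.mul_continuousOn (by fun_prop)
  refine h2.congr (fun u _ => ?_)
  rw [mul_assoc, ← Real.exp_add, neg_add_cancel, Real.exp_zero, mul_one]

theorem exp_sum {a : ℝ} (ha : 0 < a) (N : ℕ) :
    ∑ j ∈ Finset.range N, Real.exp (-(2 * a * j)) ≤ 1 + 1 / (2 * a) := by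
  set q : ℝ := Real.exp (-(2 * a)) with hq
  have hq0 : 0 < q := Real.exp_pos _
  have hq1 : q < 1 := by rw [hq, Real.exp_lt_one_iff]; linarith
  have e : ∀ j : ℕ, Real.exp (-(2 * a * j)) = q ^ j := by
    intro j
    rw [hq, ← Real.exp_nat_mul]
    congr 1
    ring
  simp only [e]
  have h1 : ∑ j ∈ Finset.range N, q ^ j ≤ 1 / (1 - q) := by
    rw [le_div_iff₀ (by linarith)]
    have := geom_sum_mul_neg q N
    rw [this]
    have : 0 < q ^ N := by positivity
    linarith
  refine h1.trans ?_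
  rw [div_le_iff₀ (by linarith)]
  have h2 : q * (1 + 2 * a) ≤ 1 := by
    have h3 : 1 + 2 * a ≤ Real.exp (2 * a) := by
      have := Real.add_one_le_exp (2 * a)
      linarith
    calc q * (1 + 2 * a) ≤ q * Real.exp (2 * a) := mul_le_mul_of_nonneg_left h3 hq0.le
      _ = 1 := by rw [hq, ← Real.exp_add]; simp
  have e2 : (1 + 1 / (2 * a)) * (1 - q) = 1 + (1 - q * (1 + 2 * a)) / (2 * a) := by field_simp; ring
  rw [e2]
  have : 0 ≤ (1 - q * (1 + 2 * a)) / (2 * a) := div_nonneg (by linarith) (by positivity)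
  linarith

theorem abel_sum {φ I : ℕ → ℝ} {W K : ℝ} (hφ : ∀ j, φ (j + 1) ≤ φ j) (hφ0 : ∀ j, 0 ≤ φ j)
    (hW : 0 ≤ W) (N : ℕ) (h : ∀ j ≤ N, ∑ i ∈ Finset.range j, I i ≤ W + K * j) :
    ∑ j ∈ Finset.range N, φ j * I j ≤ W * φ 0 + K * ∑ j ∈ Finset.range N, φ j := by
  set D : ℕ → ℝ := fun j => W + K * j - ∑ i ∈ Finset.range j, I i with hD
  have hD0 : ∀ j ≤ N, 0 ≤ D j := fun j hj => by
    have := h j hj
    rw [hD]; simp only; linarith
  have hstep : ∀ j, D (j + 1) - D j = K - I j := by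
    intro j
    rw [hD]
    simp only
    rw [Finset.sum_range_succ]
    push_cast
    ring
  have key : ∀ n ≤ N, φ n * D n - φ 0 * D 0 ≤ ∑ j ∈ Finset.range n, φ j * (D (j + 1) - D j) := by
    intro n
    induction n with
    | zero => intro _; simp
    | succ n ih =>
      intro hn
      have h1 := ih (by omega)
      rw [Finset.sum_range_succ]
      have h2 : φ (n + 1) * D (n + 1) ≤ φ n * D (n + 1) := mul_le_mul_of_nonneg_right (hφ n) (hD0 _ hn)
      have e : φ n * (D (n + 1) - D n) = φ n * D (n + 1) - φ n * D n := by ring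
      rw [e]
      linarith
  have h1 := key N le_rfl
  have h2 : ∑ j ∈ Finset.range N, φ j * (D (j + 1) - D j) =
      K * (∑ j ∈ Finset.range N, φ j) - ∑ j ∈ Finset.range N, φ j * I j := by
    rw [Finset.mul_sum, ← Finset.sum_sub_distrib]
    refine Finset.sum_congr rfl fun j _ => ?_
    rw [hstep]; ring
  rw [h2] at h1
  have h3 : 0 ≤ φ N * D N := mul_nonneg (hφ0 N) (hD0 N le_rfl)
  have h4 : D 0 = W := by rw [hD]; simp
  rw [h4] at h1
  linarith

theorem t_AB : S_AB := by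
  intro G M C C' hG0 hGm hM hint hC h hC' ε hε
  obtain ⟨b00, hb00⟩ := h (ε / 2) (by positivity)
  set b0 : ℝ := max 1 b00 with hb0d
  have hb0 : 1 ≤ b0 := le_max_left _ _
  have hb : ∀ b : ℝ, b0 ≤ b → ∀ᶠ κ : ℝ in 𝓝[>] 0,
    ∫ u in (LL κ)..(b * LL κ), G κ u ≤ (M + ε / 2) * b * (κ * LL κ ^ 2) :=
    fun b hb => hb00 b ((le_max_right _ _).trans hb)
  set K : ℝ := M + ε / 2 with hK
  have hK0 : 0 < K := by positivity
  set C0 : ℝ := max C 0 with hC0
  have hC00 : 0 ≤ C0 := le_max_right _ _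
  set W : ℝ := C0 + K * b0 with hW
  have hW0 : 0 < W := by positivity
  refine ⟨min 1 (ε / 4 / (W + K + 1)), by positivity, fun a ha haa => ?_⟩
  have ha1 : a ≤ 1 := haa.trans (min_le_left _ _)
  have haa' : a * (W + K + 1) ≤ ε / 4 := by
    have := haa.trans (min_le_right _ _)
    rwa [le_div_iff₀ (by positivity)] at this
  set Ca : ℝ := C' / (a / 2) with hCa
  -- the cut
  obtain ⟨N, hN1, hN2⟩ : ∃ N : ℕ, 1 ≤ N ∧ Real.exp (-(a * N)) * Ca ≤ 1 := by
    obtain ⟨N, hN⟩ := exists_nat_ge (max 1 (Ca / a))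
    refine ⟨N, ?_, ?_⟩
    · have : (1 : ℝ) ≤ N := (le_max_left _ _).trans hN
      exact_mod_cast this
    · have h1 : Ca / a ≤ N := (le_max_right _ _).trans hN
      rw [div_le_iff₀ ha] at h1
      have h2 : Ca ≤ Real.exp (a * N) := by
        have := Real.add_one_le_exp (a * N)
        linarith
      calc Real.exp (-(a * N)) * Ca ≤ Real.exp (-(a * N)) * Real.exp (a * N) :=
            mul_le_mul_of_nonneg_left h2 (Real.exp_pos _).le
        _ = 1 := by rw [← Real.exp_add]; simp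
  have hcum : ∀ᶠ κ : ℝ in 𝓝[>] 0, ∀ j ∈ Finset.range (N + 1), ∫ u in (LL κ)..(max b0 j * LL κ), G κ u ≤
      K * max b0 j * (κ * LL κ ^ 2) := by
    rw [eventually_all_finset]
    intro j _
    exact hb (max b0 j) (le_max_left _ _)
  filter_upwards [hcum, hC, hC' (a / 2) (by positivity) (by linarith), ev_pos, ev_L 1, hint a ha,
    hint (a / 2) (by positivity)] with κ k1 k2 k3 hκ hL hi1 hi2
  have hLp : 0 < LL κ := by linarith
  have hQ : 0 < κ * LL κ ^ 2 := by positivity
  have k2' : ∫ u in (0 : ℝ)..(LL κ), G κ u ≤ C0 * (κ * LL κ ^ 2) :=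
    k2.trans (mul_le_mul_of_nonneg_right (le_max_left _ _) hQ.le)
  have eexp : ∀ b : ℝ, (fun u => G κ u * Real.exp (-(2 * b * u / LL κ))) =
      fun u => G κ u * Real.exp (-(2 * (b / LL κ) * u)) := by
    intro b
    funext u
    congr 3
    ring
  rw [eexp] at hi1 hi2 k3 ⊢
  have hii0 : ∀ p q : ℝ, 0 ≤ p → 0 ≤ q → IntervalIntegrable (G κ) volume p q := fun p q hp hq =>
    ii_exp hi1 hp hq
  -- the blocks
  set I : ℕ → ℝ := fun j => ∫ u in (j * LL κ)..((j + 1 : ℕ) * LL κ), G κ u with hI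
  have hsumI : ∀ j : ℕ, ∑ i ∈ Finset.range j, I i = ∫ u in (0 : ℝ)..(j * LL κ), G κ u := by
    intro j
    have := intervalIntegral.sum_integral_adjacent_intervals (a := fun k : ℕ => (k : ℝ) * LL κ) (n := j)
      (f := fun u => G κ u) (μ := volume) fun k _ => hii0 _ _ (by positivity) (by positivity)
    simp only [Nat.cast_zero, zero_mul] at this
    exact this
  have hcumI : ∀ j ≤ N, ∑ i ∈ Finset.range j, I i ≤ W * (κ * LL κ ^ 2) + K * (κ * LL κ ^ 2) * j := by
    intro j hj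
    rw [hsumI]
    have h1 := k1 j (Finset.mem_range.2 (by omega))
    have hm1 : (1 : ℝ) ≤ max b0 j := hb0.trans (le_max_left _ _)
    have hjm : (j : ℝ) ≤ max b0 j := le_max_right _ _
    have h2 : ∫ u in (0 : ℝ)..(j * LL κ), G κ u ≤ ∫ u in (0 : ℝ)..(max b0 j * LL κ), G κ u :=
      intervalIntegral.integral_mono_interval le_rfl (by positivity)
        (mul_le_mul_of_nonneg_right hjm hLp.le) (ae_of_all _ fun u => hG0 κ u)
        (hii0 _ _ le_rfl (by positivity))
    have h3 := intervalIntegral.integral_add_adjacent_intervals (hii0 0 (LL κ) le_rfl hLp.le)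
      (hii0 (LL κ) (max b0 j * LL κ) hLp.le (by positivity))
    have hj0 : (0 : ℝ) ≤ j := Nat.cast_nonneg j
    have h4 : max b0 (j : ℝ) ≤ b0 + j := max_le (by linarith) (by linarith)
    have h5 : K * max b0 j * (κ * LL κ ^ 2) ≤ K * (b0 + j) * (κ * LL κ ^ 2) := by gcongr
    have e : W * (κ * LL κ ^ 2) + K * (κ * LL κ ^ 2) * j = C0 * (κ * LL κ ^ 2) + K * (b0 + j) * (κ * LL κ ^ 2) := by
      rw [hW]; ring
    rw [e]
    linarith
  have hab := abel_sum (φ := fun j : ℕ => Real.exp (-(2 * a * j))) (I := I) (W := W * (κ * LL κ ^ 2))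
    (K := K * (κ * LL κ ^ 2)) (fun j => by
      show Real.exp (-(2 * a * ((j + 1 : ℕ) : ℝ))) ≤ Real.exp (-(2 * a * j))
      rw [Real.exp_le_exp]; push_cast; nlinarith) (fun j => (Real.exp_pos _).le) (by positivity) N hcumI
  -- the near part
  have hii : ∀ p q : ℝ, 0 ≤ p → 0 ≤ q →
      IntervalIntegrable (fun u => G κ u * Real.exp (-(2 * (a / LL κ) * u))) volume p q :=
    fun p q hp hq => (hii0 p q hp hq).mul_continuousOn (by fun_prop)
  have hnear : ∫ u in (0 : ℝ)..(N * LL κ), G κ u * Real.exp (-(2 * (a / LL κ) * u)) ≤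
      ∑ j ∈ Finset.range N, Real.exp (-(2 * a * j)) * I j := by
    have := intervalIntegral.sum_integral_adjacent_intervals (a := fun k : ℕ => (k : ℝ) * LL κ) (n := N)
      (f := fun u => G κ u * Real.exp (-(2 * (a / LL κ) * u))) (μ := volume)
      fun k _ => hii _ _ (by positivity) (by positivity)
    simp only [Nat.cast_zero, zero_mul] at this
    rw [← this]
    refine Finset.sum_le_sum fun j _ => ?_
    rw [hI]
    simp only
    rw [← intervalIntegral.integral_const_mul]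
    refine intervalIntegral.integral_mono_on ?_ (hii _ _ (by positivity) (by positivity))
      ((hii0 _ _ (by positivity) (by positivity)).const_mul _) fun u hu => ?_
    · push_cast; nlinarith
    · rw [mul_comm]
      apply mul_le_mul_of_nonneg_right _ (hG0 κ u)
      rw [Real.exp_le_exp]
      have h1 : (j : ℝ) ≤ u / LL κ := by rw [le_div_iff₀ hLp]; exact hu.1
      have e : 2 * (a / LL κ) * u = 2 * a * (u / LL κ) := by ring
      rw [e]
      nlinarith
  -- the tail
  have htail : ∫ u in Ioi (N * LL κ), G κ u * Real.exp (-(2 * (a / LL κ) * u)) ≤ κ * LL κ ^ 2 := by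
    have hN0 : (0 : ℝ) ≤ N * LL κ := by positivity
    have hDi2' : IntegrableOn (fun u => G κ u * Real.exp (-(2 * (a / 2 / LL κ) * u))) (Ioi (N * LL κ)) :=
      hi2.mono_set (Ioi_subset_Ioi hN0)
    calc ∫ u in Ioi (N * LL κ), G κ u * Real.exp (-(2 * (a / LL κ) * u)) ≤
          ∫ u in Ioi (N * LL κ), Real.exp (-(a * N)) * (G κ u * Real.exp (-(2 * (a / 2 / LL κ) * u))) := by
          refine setIntegral_mono_on (hi1.mono_set (Ioi_subset_Ioi hN0)) (hDi2'.const_mul _) measurableSet_Ioi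
            fun u hu => ?_
          have h1 : (N : ℝ) ≤ u / LL κ := by rw [le_div_iff₀ hLp]; exact le_of_lt hu
          have e1 : Real.exp (-(a * N)) * (G κ u * Real.exp (-(2 * (a / 2 / LL κ) * u))) =
              G κ u * (Real.exp (-(a * N)) * Real.exp (-(2 * (a / 2 / LL κ) * u))) := by ring
          rw [e1, ← Real.exp_add]
          apply mul_le_mul_of_nonneg_left _ (hG0 κ u)
          rw [Real.exp_le_exp]
          have e2 : 2 * (a / LL κ) * u = 2 * a * (u / LL κ) := by ring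
          have e3 : 2 * (a / 2 / LL κ) * u = a * (u / LL κ) := by ring
          rw [e2, e3]
          nlinarith
      _ = Real.exp (-(a * N)) * ∫ u in Ioi (N * LL κ), G κ u * Real.exp (-(2 * (a / 2 / LL κ) * u)) :=
          integral_const_mul _ _
      _ ≤ Real.exp (-(a * N)) * ∫ u in Ioi (0 : ℝ), G κ u * Real.exp (-(2 * (a / 2 / LL κ) * u)) := by
          apply mul_le_mul_of_nonneg_left _ (Real.exp_pos _).le
          exact setIntegral_mono_set hi2 (ae_of_all _ fun u => mul_nonneg (hG0 κ u) (Real.exp_pos _).le)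
            (Ioi_subset_Ioi hN0).eventuallyLE
      _ ≤ Real.exp (-(a * N)) * (Ca * (κ * LL κ ^ 2)) := by
          apply mul_le_mul_of_nonneg_left _ (Real.exp_pos _).le
          exact k3
      _ = Real.exp (-(a * N)) * Ca * (κ * LL κ ^ 2) := by ring
      _ ≤ 1 * (κ * LL κ ^ 2) := mul_le_mul_of_nonneg_right hN2 hQ.le
      _ = _ := one_mul _
  have hsplit : (∫ u in Ioi (0 : ℝ), G κ u * Real.exp (-(2 * (a / LL κ) * u))) =
      (∫ u in (0 : ℝ)..(N * LL κ), G κ u * Real.exp (-(2 * (a / LL κ) * u))) +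
      ∫ u in Ioi (N * LL κ), G κ u * Real.exp (-(2 * (a / LL κ) * u)) := by
    have := intervalIntegral.integral_Ioi_sub_Ioi hi1 (b := N * LL κ) (by positivity)
    linarith
  rw [hsplit]
  have hexp := exp_sum ha N
  have h6 : K * (κ * LL κ ^ 2) * ∑ j ∈ Finset.range N, Real.exp (-(2 * a * j)) ≤
      K * (κ * LL κ ^ 2) * (1 + 1 / (2 * a)) := mul_le_mul_of_nonneg_left hexp (by positivity)
  have e7 : Real.exp (-(2 * a * ((0 : ℕ) : ℝ))) = 1 := by simp
  have h8 : (∫ u in (0 : ℝ)..(N * LL κ), G κ u * Real.exp (-(2 * (a / LL κ) * u))) ≤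
      W * (κ * LL κ ^ 2) + K * (κ * LL κ ^ 2) * (1 + 1 / (2 * a)) := by
    refine hnear.trans (hab.trans ?_)
    show W * (κ * LL κ ^ 2) * Real.exp (-(2 * a * ((0 : ℕ) : ℝ))) + _ ≤ _
    rw [e7, mul_one]
    linarith
  have h9 : 2 * a * (W + K * (1 + 1 / (2 * a)) + 1) ≤ M + ε := by
    have e : 2 * a * (W + K * (1 + 1 / (2 * a)) + 1) = 2 * (a * (W + K + 1)) + K := by field_simp; ring
    rw [e, hK]
    rw [hK] at haa'
    linarith
  calc 2 * a * ((∫ u in (0 : ℝ)..(N * LL κ), G κ u * Real.exp (-(2 * (a / LL κ) * u))) +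
        ∫ u in Ioi (N * LL κ), G κ u * Real.exp (-(2 * (a / LL κ) * u))) ≤
        2 * a * ((W * (κ * LL κ ^ 2) + K * (κ * LL κ ^ 2) * (1 + 1 / (2 * a))) + κ * LL κ ^ 2) :=
        mul_le_mul_of_nonneg_left (add_le_add h8 htail) (by positivity)
    _ = 2 * a * (W + K * (1 + 1 / (2 * a)) + 1) * (κ * LL κ ^ 2) := by ring
    _ ≤ _ := mul_le_mul_of_nonneg_right h9 hQ.le

end Q227.CP
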