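import Pool.Agent.Q253.CP.Stm

/-!
# Project CP: common facts about `LL κ`
-/

set_option autoImplicit false

namespace Q227.CP

open MeasureTheory Filter Topology Set
open Pool.Agent.Q253.CP

theorem LL_top : Tendsto LL (𝓝[>] 0) atTop := by
  unfold LL
  simp only [one_div]
  exact Real.tendsto_log_atTop.comp tendsto_inv_nhdsGT_zero

theorem ev_pos : ∀ᶠ κ : ℝ in 𝓝[>] 0, 0 < κ := eventually_mem_nhdsWithin

theorem ev_L (c : ℝ) : ∀ᶠ κ : ℝ in 𝓝[>] 0, c ≤ LL κ := LL_top.eventually_ge_atTop c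

theorem ev_lt {c : ℝ} (hc : 0 < c) : ∀ᶠ κ : ℝ in 𝓝[>] 0, κ < c :=
  mem_nhdsWithin_of_mem_nhds (Iio_mem_nhds hc)

end Q227.CP
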