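import Pool.Agent.Q227.CP.Base
import Pool.Agent.Q128.GM.Karamata

/-!
# CP-KA: Karamata's theorem for families
-/

set_option autoImplicit false

namespace Q227.CP

open MeasureTheory Filter Topology Set
open Pool.Agent.Q253.CP
open Pool.Agent.Q128.GM (ez_cont ez_le ez_pow tendsto_window')

/-- Karamata's Tauberian lemma (the integrability only for one exponent) -/
theorem karamata1 {ι : Type*} {l : Filter ι} {m : ι → Measure ℝ} {w : ℝ → ℝ}
    (hw : Continuous w) (hw0 : ∀ x, 0 ≤ w x) (hw1 : ∀ x, w x ≤ 1)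
    (h0 : ∀ᶠ i in l, m i (Iio 0) = 0)
    (hint : ∀ᶠ i in l, Integrable (fun y : ℝ => Real.exp (-y)) (m i))
    (h : ∀ a : ℝ, 0 < a → Tendsto (fun i => ∫ y, Real.exp (-(a * y)) ∂(m i)) l
      (𝓝 (∫ y in Ioi (0 : ℝ), Real.exp (-(a * y)) * w y)))
    {c d : ℝ} (hc : 0 < c) (hcd : c < d) :
    Tendsto (fun i => (m i).real (Icc c d)) l (𝓝 (∫ y in c..d, w y)) := by
  obtain ⟨M, hM⟩ : ∃ M : Measure ℝ, M = (volume.restrict (Ioi (0 : ℝ))).withDensity
    fun y => ENNReal.ofReal (w y) := ⟨_, rfl⟩
  have hMle : M ≤ volume.restrict (Ioi (0 : ℝ)) := by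
    rw [hM]
    calc (volume.restrict (Ioi (0 : ℝ))).withDensity (fun y => ENNReal.ofReal (w y))
        ≤ (volume.restrict (Ioi (0 : ℝ))).withDensity 1 := by
          refine withDensity_mono (ae_of_all _ fun y => ?_)
          simpa using ENNReal.ofReal_le_one.2 (hw1 y)
      _ = volume.restrict (Ioi (0 : ℝ)) := withDensity_one
  have iM : Integrable (fun y : ℝ => Real.exp (-max y 0)) M := by
    refine Integrable.mono_measure ?_ hMle
    have h1 : IntegrableOn (fun y : ℝ => Real.exp (-y)) (Ioi 0) := integrableOn_exp_neg_Ioi 0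
    refine h1.congr ?_
    filter_upwards [ae_restrict_mem measurableSet_Ioi] with y hy
    rw [max_eq_left (le_of_lt hy)]
  have ae0 : ∀ i, m i (Iio 0) = 0 → ∀ᵐ y ∂(m i), 0 ≤ y := by
    intro i hi
    rw [ae_iff]
    simp only [not_le]
    exact hi
  have hint' : ∀ᶠ i in l, Integrable (fun y : ℝ => Real.exp (-max y 0)) (m i) := by
    filter_upwards [hint, h0] with i hi h2
    refine hi.congr ?_
    filter_upwards [ae0 i h2] with y hy
    rw [max_eq_left hy]
  have k2 : ∀ k : ℕ, Tendsto (fun i => ∫ y, Real.exp (-max y 0) * Real.exp (-max y 0) ^ k ∂(m i))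
      l (𝓝 (∫ y, Real.exp (-max y 0) * Real.exp (-max y 0) ^ k ∂M)) := by
    intro k
    have e1 : ∫ y, Real.exp (-max y 0) * Real.exp (-max y 0) ^ k ∂M =
        ∫ y in Ioi (0 : ℝ), Real.exp (-((k + 1 : ℝ) * y)) * w y := by
      rw [hM, integral_withDensity_eq_integral_toReal_smul₀ (by fun_prop)
        (ae_of_all _ fun y => ENNReal.ofReal_lt_top)]
      refine setIntegral_congr_fun measurableSet_Ioi fun y hy => ?_
      rw [ENNReal.toReal_ofReal (hw0 y), ez_pow y (le_of_lt hy), smul_eq_mul, mul_comm]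
    rw [e1]
    refine (h (k + 1 : ℝ) (by positivity)).congr' ?_
    filter_upwards [h0] with i h2
    refine integral_congr_ae ?_
    filter_upwards [ae0 i h2] with y hy
    exact (ez_pow y hy k).symm
  have pre : ∀ t : ℝ, 0 < t → (fun y : ℝ => Real.exp (-max y 0)) ⁻¹' {Real.exp (-t)} = {t} := by
    intro t ht
    ext y
    simp only [mem_preimage, mem_singleton_iff, Real.exp_eq_exp, neg_inj]
    constructor
    · intro h1
      rcases le_total y 0 with h2 | h2
      · rw [max_eq_right h2] at h1; linarith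
      · rw [max_eq_left h2] at h1; exact h1
    · intro h1
      rw [h1, max_eq_left ht.le]
  have hnull : ∀ t : ℝ, M {t} = 0 := by
    intro t
    refine le_antisymm ((hMle {t}).trans ?_) bot_le
    rw [Measure.restrict_apply (measurableSet_singleton t)]
    exact (measure_mono inter_subset_left).trans (by simp)
  have n1 := pre d (hc.trans hcd)
  have n2 := pre c hc
  have k3 := tendsto_window' (α := Real.exp (-d)) (β := Real.exp (-c)) ez_cont
    (fun y => Real.exp_pos _) ez_le hint' iM k2 (Real.exp_pos _)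
    (by rw [n1]; exact hnull d) (by rw [n2]; exact hnull c)
  have hE : (fun y : ℝ => Real.exp (-max y 0)) ⁻¹' (Icc (Real.exp (-d)) (Real.exp (-c))) =
      Icc c d := by
    ext y
    simp only [mem_preimage, mem_Icc, Real.exp_le_exp, neg_le_neg_iff]
    constructor
    · rintro ⟨h1, h2⟩
      rcases le_total y 0 with h3 | h3
      · rw [max_eq_right h3] at h2; linarith
      · rw [max_eq_left h3] at h1 h2; exact ⟨h2, h1⟩
    · rintro ⟨h1, h2⟩
      rw [max_eq_left (by linarith)]
      exact ⟨h2, h1⟩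
  rw [hE] at k3
  have e2 : M.real (Icc c d) = ∫ y in c..d, w y := by
    rw [Measure.real, hM, withDensity_apply _ measurableSet_Icc,
      Measure.restrict_restrict measurableSet_Icc,
      inter_eq_left.2 (show Icc c d ⊆ Ioi 0 from fun y hy => lt_of_lt_of_le hc hy.1),
      intervalIntegral.integral_of_le hcd.le, ← integral_Icc_eq_integral_Ioc,
      integral_eq_lintegral_of_nonneg_ae (ae_of_all _ hw0) hw.aestronglyMeasurable]
  rw [e2] at k3
  exact k3

section

variable {G : ℝ → ℝ} (hG0 : ∀ u, 0 ≤ G u) (hGm : Measurable G) {A B : ℝ} (hA : 0 ≤ A) (hB : 0 < B)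

/-- the dilated measure -/
noncomputable def mG (G : ℝ → ℝ) (A B : ℝ) : Measure ℝ :=
  ENNReal.ofReal A • Measure.map (fun u => u / B)
    ((volume.restrict (Ioi (0 : ℝ))).withDensity fun u => ENNReal.ofReal (G u))

include hG0 hGm hA hB in
theorem mG_integral {f : ℝ → ℝ} (hf : Continuous f) :
    ∫ y, f y ∂(mG G A B) = A * ∫ u in Ioi (0 : ℝ), G u * f (u / B) := by
  unfold mG
  rw [integral_smul_measure, integral_map (by fun_prop) hf.aestronglyMeasurable,
    ENNReal.toReal_ofReal hA, smul_eq_mul,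
    integral_withDensity_eq_integral_toReal_smul₀ (hGm.ennreal_ofReal.aemeasurable)
      (ae_of_all _ fun y => ENNReal.ofReal_lt_top)]
  congr 1
  refine integral_congr_ae (ae_of_all _ fun u => ?_)
  simp only [ENNReal.toReal_ofReal (hG0 u), smul_eq_mul]

include hG0 hGm in
theorem mG_integrable {f : ℝ → ℝ} (hf : Continuous f)
    (h : IntegrableOn (fun u => G u * f (u / B)) (Ioi 0)) : Integrable f (mG G A B) := by
  unfold mG
  refine Integrable.smul_measure ?_ ENNReal.ofReal_ne_top
  rw [integrable_map_measure hf.aestronglyMeasurable (by fun_prop),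
    integrable_withDensity_iff_integrable_smul₀' (hGm.ennreal_ofReal.aemeasurable)
      (ae_of_all _ fun y => ENNReal.ofReal_lt_top)]
  refine h.congr (ae_of_all _ fun u => ?_)
  simp only [ENNReal.toReal_ofReal (hG0 u), smul_eq_mul, Function.comp]

include hB in
theorem mG_neg : mG G A B (Iio 0) = 0 := by
  unfold mG
  rw [Measure.smul_apply, Measure.map_apply (by fun_prop) measurableSet_Iio]
  have : (fun y : ℝ => y / B) ⁻¹' Iio 0 = Iio 0 := by
    ext y
    simp only [mem_preimage, mem_Iio]
    constructor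
    · intro h
      by_contra h2
      push Not at h2
      have : 0 ≤ y / B := div_nonneg h2 hB.le
      linarith
    · intro h
      exact div_neg_of_neg_of_pos h hB
  rw [this]
  have h2 : ((volume.restrict (Ioi (0 : ℝ))).withDensity fun u => ENNReal.ofReal (G u)) (Iio 0) = 0 := by
    refine withDensity_absolutelyContinuous _ _ ?_
    rw [Measure.restrict_apply measurableSet_Iio]
    have : Iio (0 : ℝ) ∩ Ioi 0 = ∅ := by
      ext x
      simp only [mem_inter_iff, mem_Iio, mem_Ioi, mem_empty_iff_false, iff_false, not_and]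
      intro h
      linarith
    rw [this, measure_empty]
  rw [h2, smul_zero]

include hG0 hGm hA hB in
theorem mG_Icc {c d : ℝ} (hc : 0 < c) (hcd : c ≤ d) :
    (mG G A B).real (Icc c d) = A * ∫ u in (c * B)..(d * B), G u := by
  unfold mG
  rw [measureReal_def, Measure.smul_apply, Measure.map_apply (by fun_prop) measurableSet_Icc]
  have : (fun y : ℝ => y / B) ⁻¹' Icc c d = Icc (c * B) (d * B) := by
    ext y
    simp only [mem_preimage, mem_Icc]
    rw [le_div_iff₀ hB, div_le_iff₀ hB]
  rw [this, smul_eq_mul, ENNReal.toReal_mul, ENNReal.toReal_ofReal hA]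
  congr 1
  rw [withDensity_apply _ measurableSet_Icc, Measure.restrict_restrict measurableSet_Icc,
    inter_eq_left.2 (show Icc (c * B) (d * B) ⊆ Ioi 0 from fun y hy => lt_of_lt_of_le (by positivity) hy.1),
    intervalIntegral.integral_of_le (mul_le_mul_of_nonneg_right hcd hB.le), ← integral_Icc_eq_integral_Ioc,
    integral_eq_lintegral_of_nonneg_ae (ae_of_all _ hG0) hGm.aestronglyMeasurable]

end

theorem ii_of_exp {G : ℝ → ℝ} {s : ℝ} (h : IntegrableOn (fun u => G u * Real.exp (-(s * u))) (Ioi 0))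
    {x y : ℝ} (hx : 0 ≤ x) (hy : 0 ≤ y) : IntervalIntegrable G volume x y := by
  have h1 : IntervalIntegrable (fun u => G u * Real.exp (-(s * u))) volume x y := by
    rw [intervalIntegrable_iff]
    refine h.mono_set ?_
    intro u hu
    rw [uIoc, mem_Ioc] at hu
    exact lt_of_le_of_lt (le_min hx hy) hu.1
  have h2 : IntervalIntegrable (fun u => (G u * Real.exp (-(s * u))) * Real.exp (s * u)) volume x y :=
    h1.mul_continuousOn (by fun_prop)
  refine h2.congr (fun u _ => ?_)
  rw [mul_assoc, ← Real.exp_add, neg_add_cancel, Real.exp_zero, mul_one]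

theorem small_part {G : ℝ → ℝ} (hG0 : ∀ u, 0 ≤ G u) {s x : ℝ} (hs : 0 < s) (hx : 0 ≤ x) (hsx : s * x ≤ 1)
    (h : IntegrableOn (fun u => G u * Real.exp (-(s * u))) (Ioi 0)) :
    ∫ u in (0 : ℝ)..x, G u ≤ 3 * ∫ u in Ioi (0 : ℝ), G u * Real.exp (-(s * u)) := by
  have hii := ii_of_exp h (le_refl 0) hx
  have hn : 0 ≤ ∫ u in Ioi (0 : ℝ), G u * Real.exp (-(s * u)) :=
    setIntegral_nonneg measurableSet_Ioi fun u _ => mul_nonneg (hG0 u) (Real.exp_pos _).le
  have m1 : ∫ u in (0 : ℝ)..x, G u ≤ Real.exp 1 * ∫ u in Ioi (0 : ℝ), G u * Real.exp (-(s * u)) := by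
    calc ∫ u in (0 : ℝ)..x, G u ≤ ∫ u in (0 : ℝ)..x, Real.exp 1 * (G u * Real.exp (-(s * u))) := by
          refine intervalIntegral.integral_mono_on hx hii
            ((hii.mul_continuousOn (by fun_prop)).const_mul _) fun u hu => ?_
          have e : Real.exp 1 * (G u * Real.exp (-(s * u))) = G u * Real.exp (1 + -(s * u)) := by
            rw [Real.exp_add]; ring
          rw [e]
          have h4 : 0 ≤ 1 + -(s * u) := by
            have := mul_le_mul_of_nonneg_left hu.2 hs.le
            linarith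
          have h5 : 1 ≤ Real.exp (1 + -(s * u)) := Real.one_le_exp h4
          nlinarith [hG0 u]
      _ = Real.exp 1 * ∫ u in (0 : ℝ)..x, G u * Real.exp (-(s * u)) :=
          intervalIntegral.integral_const_mul _ _
      _ ≤ _ := by
          apply mul_le_mul_of_nonneg_left _ (Real.exp_pos _).le
          rw [intervalIntegral.integral_of_le hx]
          exact setIntegral_mono_set h (ae_of_all _ fun u => mul_nonneg (hG0 u) (Real.exp_pos _).le)
            Ioc_subset_Ioi_self.eventuallyLE
  have m3 : Real.exp 1 ≤ 3 := by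
    have := Real.exp_one_lt_d9
    linarith
  exact m1.trans (mul_le_mul_of_nonneg_right m3 hn)

theorem t_KA : S_KA := by
  intro G D hG0 hGm hD hint hlim ε hε
  set E : ℝ := D + 1 with hE
  have hEp : 0 < E := by positivity
  set l : Filter (ℝ × ℝ) := (atTop : Filter ℝ).curry (𝓝[>] (0 : ℝ)) with hl
  have hev : ∀ P : ℝ → ℝ → Prop, (∀ᶠ b in (atTop : Filter ℝ), ∀ᶠ κ in 𝓝[>] (0 : ℝ), P b κ) →
      ∀ᶠ p in l, P p.1 p.2 := fun P h => Filter.eventually_curry_iff.2 h
  set m : ℝ × ℝ → Measure ℝ := fun p => mG (G p.2) (1 / (E * p.1 * (p.2 * LL p.2 ^ 2))) (p.1 * LL p.2) with hm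
  have hK := fun (c d : ℝ) (hc : 0 < c) (hcd : c < d) =>
    karamata1 (l := l) (m := m) (w := fun _ => D / E) continuous_const
    (fun _ => by positivity) (fun _ => by rw [div_le_one hEp]; linarith)
    (hev (fun b κ => m (b, κ) (Iio 0) = 0) (by
      filter_upwards [eventually_gt_atTop 0] with b hb
      filter_upwards [ev_L 1] with κ hL
      exact mG_neg (by positivity)))
    (hev (fun b κ => Integrable (fun y : ℝ => Real.exp (-y)) (m (b, κ))) (by
      filter_upwards [eventually_gt_atTop 0] with b hb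
      filter_upwards [ev_L 1, ev_pos, hint (1 / (2 * b)) (by positivity)] with κ hL hκ hi
      refine mG_integrable (hG0 κ) (hGm κ) (by fun_prop) ?_
      have e : (fun u => G κ u * Real.exp (-(u / (b * LL κ)))) =
          fun u => G κ u * Real.exp (-(2 * (1 / (2 * b)) * u / LL κ)) := by
        funext u
        congr 3
        field_simp
      rw [e]
      exact hi))
    (fun s hs => by
      have e1 : ∫ y in Ioi (0 : ℝ), Real.exp (-(s * y)) * (D / E) = D / E / s := by
        have : (fun y : ℝ => Real.exp (-(s * y)) * (D / E)) = fun y => Real.exp (-s * y) * (D / E) := by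
          funext y
          rw [neg_mul]
        rw [this, integral_mul_const, integral_exp_mul_Ioi (by linarith)]
        simp only [mul_zero, Real.exp_zero]
        field_simp
      rw [e1, Metric.tendsto_nhds]
      intro ε' hε'
      refine hev (fun b κ => dist (∫ y, Real.exp (-(s * y)) ∂(m (b, κ))) (D / E / s) < ε') ?_
      obtain ⟨a0, ha0, h1⟩ := hlim (ε' * s * E / 2) (by positivity)
      filter_upwards [eventually_ge_atTop (s / (2 * a0)), eventually_gt_atTop 0] with b hb hb0
      have ha : s / b / 2 ≤ a0 := by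
        rw [div_le_iff₀ (by positivity)] at hb
        rw [div_div, div_le_iff₀ (by positivity)]
        linarith
      filter_upwards [h1 (s / b / 2) (by positivity) ha, ev_pos, ev_L 1] with κ h2 hκ hL
      have hLp : 0 < LL κ := by linarith
      have hQ : 0 < κ * LL κ ^ 2 := by positivity
      rw [hm]
      dsimp only
      rw [mG_integral (hG0 κ) (hGm κ) (by positivity) (by positivity) (by fun_prop), Real.dist_eq]
      have e3 : (fun u => G κ u * Real.exp (-(s * (u / (b * LL κ))))) =
          fun u => G κ u * Real.exp (-(2 * (s / b / 2) * u / LL κ)) := by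
        funext u
        congr 3
        field_simp
      rw [e3]
      set S : ℝ := ∫ u in Ioi (0 : ℝ), G κ u * Real.exp (-(2 * (s / b / 2) * u / LL κ)) with hS
      have e2 : 1 / (E * b * (κ * LL κ ^ 2)) * S - D / E / s =
          1 / (E * s * (κ * LL κ ^ 2)) * (2 * (s / b / 2) * S - D * (κ * LL κ ^ 2)) := by
        field_simp
      rw [e2, abs_mul, abs_of_pos (by positivity)]
      calc 1 / (E * s * (κ * LL κ ^ 2)) * |2 * (s / b / 2) * S - D * (κ * LL κ ^ 2)|
          ≤ 1 / (E * s * (κ * LL κ ^ 2)) * (ε' * s * E / 2 * (κ * LL κ ^ 2)) :=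
            mul_le_mul_of_nonneg_left h2 (by positivity)
        _ = ε' / 2 := by field_simp
        _ < ε' := by linarith) hc hcd
  -- the parameters
  set c : ℝ := min (1 / 2) (ε / (12 * E)) with hc
  have hc0 : 0 < c := by positivity
  have hc1 : c ≤ 1 / 2 := min_le_left _ _
  have hcε : c * E ≤ ε / 12 := by
    have : c ≤ ε / (12 * E) := min_le_right _ _
    rw [le_div_iff₀ (by positivity)] at this
    linarith
  have h1 := (Metric.tendsto_nhds.1 (hK c 1 hc0 (by linarith))) (ε / (4 * E)) (by positivity)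
  have h2 : ∀ᶠ b in (atTop : Filter ℝ), ∀ᶠ κ in 𝓝[>] (0 : ℝ),
      dist ((m (b, κ)).real (Icc c 1)) (∫ _ in c..1, D / E) < ε / (4 * E) := Filter.eventually_curry_iff.1 h1
  obtain ⟨b1, hb1⟩ := h2.exists_forall_of_atTop
  obtain ⟨a0, ha0, h3⟩ := hlim 1 one_pos
  refine ⟨max (max 1 b1) (1 / (2 * c * a0)), (le_max_left _ _).trans (le_max_left _ _), fun b hb => ?_⟩
  have hb1' : 1 ≤ b := ((le_max_left _ _).trans (le_max_left _ _)).trans hb
  have hbb : b1 ≤ b := ((le_max_right _ _).trans (le_max_left _ _)).trans hb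
  have hba : 1 / (2 * c * a0) ≤ b := (le_max_right _ _).trans hb
  have hb0 : 0 < b := by linarith
  set a : ℝ := 1 / (2 * (c * b)) with ha
  have ha0' : 0 < a := by positivity
  have haa : a ≤ a0 := by
    rw [ha, div_le_iff₀ (by positivity)]
    rw [div_le_iff₀ (by positivity)] at hba
    linarith
  filter_upwards [hb1 b hbb, h3 a ha0' haa, ev_pos, ev_L 1, hint a ha0'] with κ k1 k2 hκ hL hi
  have hLp : 0 < LL κ := by linarith
  have hQ : 0 < κ * LL κ ^ 2 := by positivity
  rw [hm] at k1
  dsimp only at k1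
  rw [mG_Icc (hG0 κ) (hGm κ) (by positivity) (by positivity) hc0 (by linarith), intervalIntegral.integral_const,
    smul_eq_mul, one_mul, Real.dist_eq] at k1
  set W : ℝ := ∫ u in (c * (b * LL κ))..(b * LL κ), G κ u with hW
  have hbQ : 0 < b * (κ * LL κ ^ 2) := by positivity
  have hEQ : 0 < E * (b * (κ * LL κ ^ 2)) := by positivity
  have k3 : |W - (1 - c) * D * (b * (κ * LL κ ^ 2))| ≤ ε / 4 * (b * (κ * LL κ ^ 2)) := by
    have e1 : W - (1 - c) * D * (b * (κ * LL κ ^ 2)) =
        (E * (b * (κ * LL κ ^ 2))) * (1 / (E * b * (κ * LL κ ^ 2)) * W - (1 - c) * (D / E)) := by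
      field_simp
    rw [e1, abs_mul, abs_of_pos hEQ]
    calc E * (b * (κ * LL κ ^ 2)) * |1 / (E * b * (κ * LL κ ^ 2)) * W - (1 - c) * (D / E)|
        ≤ E * (b * (κ * LL κ ^ 2)) * (ε / (4 * E)) := mul_le_mul_of_nonneg_left k1.le hEQ.le
      _ = _ := by field_simp
  have hie : IntegrableOn (fun u => G κ u * Real.exp (-(2 * a / LL κ * u))) (Ioi 0) := by
    have e : (fun u => G κ u * Real.exp (-(2 * a / LL κ * u))) = fun u => G κ u * Real.exp (-(2 * a * u / LL κ)) := by
      funext u
      congr 3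
      ring
    rw [e]
    exact hi
  have hce : ∫ u in Ioi (0 : ℝ), G κ u * Real.exp (-(2 * a / LL κ * u)) =
      ∫ u in Ioi (0 : ℝ), G κ u * Real.exp (-(2 * a * u / LL κ)) := by
    refine setIntegral_congr_fun measurableSet_Ioi fun u _ => ?_
    congr 3
    ring
  have hcb : 0 ≤ c * (b * LL κ) := by positivity
  have w3 := small_part (hG0 κ) (s := 2 * a / LL κ) (x := c * (b * LL κ)) (by positivity) hcb
    (by rw [ha]; field_simp; exact le_refl _) hie
  rw [hce] at w3
  set S : ℝ := ∫ u in Ioi (0 : ℝ), G κ u * Real.exp (-(2 * a * u / LL κ)) with hS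
  have m2 : S ≤ E * c * (b * (κ * LL κ ^ 2)) := by
    have h4 := (abs_le.1 k2).2
    have e : 2 * a = 1 / (c * b) := by rw [ha]; field_simp
    rw [e] at h4
    have h5 : 1 / (c * b) * S ≤ E * (κ * LL κ ^ 2) := by rw [hE]; linarith
    rw [one_div, inv_mul_le_iff₀ (by positivity)] at h5
    linarith
  have w0 : 0 ≤ ∫ u in (0 : ℝ)..(c * (b * LL κ)), G κ u :=
    intervalIntegral.integral_nonneg hcb fun u _ => hG0 κ u
  rw [← intervalIntegral.integral_add_adjacent_intervals (ii_of_exp hie (le_refl 0) hcb)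
      (ii_of_exp hie hcb (by positivity : (0 : ℝ) ≤ b * LL κ)), ← hW]
  set Z : ℝ := ∫ u in (0 : ℝ)..(c * (b * LL κ)), G κ u with hZ
  set Q : ℝ := b * (κ * LL κ ^ 2) with hQd
  have eD : D * b * (κ * LL κ ^ 2) = D * Q := by rw [hQd]; ring
  have eε : ε * b * (κ * LL κ ^ 2) = ε * Q := by rw [hQd]; ring
  rw [eD, eε]
  have hZle : Z ≤ ε / 4 * Q := by
    have h6 : 3 * (E * c * Q) ≤ ε / 4 * Q := by
      have : 3 * (E * c * Q) = 3 * (c * E) * Q := by ring
      rw [this]
      exact mul_le_mul_of_nonneg_right (by linarith) hbQ.le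
    linarith
  have hDc : D * c * Q ≤ ε / 12 * Q := by
    refine mul_le_mul_of_nonneg_right ?_ hbQ.le
    have : D * c ≤ c * E := by rw [hE]; nlinarith
    linarith
  have hDc0 : 0 ≤ D * c * Q := by positivity
  have hεQ : 0 ≤ ε * Q := by positivity
  obtain ⟨k4, k5⟩ := abs_le.1 k3
  rw [abs_le]
  constructor
  · nlinarith
  · nlinarith

end Q227.CP
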