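import Pool.Agent.Q227.CP.Base

/-!
# CP-KT: change of the parameter
-/

set_option autoImplicit false

namespace Q227.CP

open MeasureTheory Filter Topology Set
open Pool.Agent.Q253.CP

/-- the logarithmic length -/
noncomputable def kT (T : ℝ) : ℝ := Real.log (1 + 1 / T)

theorem kT_pos {T : ℝ} (hT : 0 < T) : 0 < kT T := by
  unfold kT
  apply Real.log_pos
  have : 0 < 1 / T := by positivity
  linarith

theorem exp_kT {T : ℝ} (hT : 0 < T) : Real.exp (kT T) = 1 + 1 / T := by
  unfold kT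
  rw [Real.exp_log (by positivity)]

theorem exp_image (A B : ℝ) : Real.exp '' Ioc A B = Ioc (Real.exp A) (Real.exp B) := by
  ext x
  constructor
  · rintro ⟨u, hu, rfl⟩
    exact ⟨Real.exp_lt_exp.2 hu.1, Real.exp_le_exp.2 hu.2⟩
  · rintro ⟨h1, h2⟩
    have hx : 0 < x := (Real.exp_pos A).trans h1
    refine ⟨Real.log x, ⟨?_, ?_⟩, Real.exp_log hx⟩
    · rwa [Real.lt_log_iff_exp_lt hx]
    · rwa [Real.log_le_iff_le_exp hx]

theorem exp_change (g : ℝ → ℝ) {A B : ℝ} (hAB : A ≤ B) :
    ∫ x in (Real.exp A)..(Real.exp B), g x = ∫ u in A..B, Real.exp u * g (Real.exp u) := by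
  rw [intervalIntegral.integral_of_le (Real.exp_le_exp.2 hAB), intervalIntegral.integral_of_le hAB,
    ← exp_image, integral_image_eq_integral_abs_deriv_smul measurableSet_Ioc
      (fun u _ => (Real.hasDerivAt_exp u).hasDerivWithinAt) Real.exp_injective.injOn]
  refine integral_congr_ae (ae_of_all _ fun u => ?_)
  show |Real.exp u| • g (Real.exp u) = Real.exp u * g (Real.exp u)
  rw [abs_of_pos (Real.exp_pos u), smul_eq_mul]

/-- the integrand -/
noncomputable def FF (f : ℝ → ℂ) (κ u : ℝ) : ℝ := ‖f (u + κ) - f u‖ ^ 2 * Real.exp (-u)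

theorem FF_nonneg (f : ℝ → ℂ) (κ u : ℝ) : 0 ≤ FF f κ u := by
  unfold FF
  positivity

theorem FF_ii {f : ℝ → ℂ} (hm : Measurable f) (hC : ∃ C : ℝ, ∀ t, ‖f t‖ ≤ C * Real.exp t) (κ a b : ℝ) :
    IntervalIntegrable (FF f κ) volume a b := by
  obtain ⟨C, hC⟩ := hC
  have hg : Continuous fun u : ℝ => (C * Real.exp (u + κ) + C * Real.exp u) ^ 2 * Real.exp (-u) := by fun_prop
  refine (hg.intervalIntegrable a b).mono_fun' ?_ (ae_of_all _ fun u => ?_)
  · unfold FF
    have h1 : Measurable fun u : ℝ => f (u + κ) := hm.comp (measurable_id.add_const κ)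
    exact (((h1.sub hm).norm.pow_const 2).mul (by fun_prop)).aestronglyMeasurable
  · show ‖FF f κ u‖ ≤ (C * Real.exp (u + κ) + C * Real.exp u) ^ 2 * Real.exp (-u)
    rw [Real.norm_of_nonneg (FF_nonneg f κ u)]
    unfold FF
    refine mul_le_mul_of_nonneg_right ?_ (Real.exp_pos _).le
    refine pow_le_pow_left₀ (norm_nonneg _) ?_ 2
    exact (norm_sub_le _ _).trans (add_le_add (hC _) (hC _))

theorem VT_eq (f : ℝ → ℂ) {T : ℝ} (hT : 1 ≤ T) {b : ℝ} (hb : 1 ≤ b) :
    VT f T b = T / Real.log T ^ 2 * ∫ u in (Real.log T)..(b * Real.log T), FF f (kT T) u := by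
  have hTp : 0 < T := by linarith
  have hlog : 0 ≤ Real.log T := Real.log_nonneg hT
  unfold VT
  congr 1
  have hle : Real.log T ≤ b * Real.log T := by nlinarith
  have e1 : T ^ b = Real.exp (b * Real.log T) := by rw [Real.rpow_def_of_pos hTp, mul_comm]
  have e0 : T = Real.exp (Real.log T) := (Real.exp_log hTp).symm
  have e3 : (∫ x in T..(T ^ b), ‖f (Real.log (x + x / T)) - f (Real.log x)‖ ^ 2 / x ^ 2) =
      ∫ x in (Real.exp (Real.log T))..(Real.exp (b * Real.log T)),
        ‖f (Real.log (x + x / T)) - f (Real.log x)‖ ^ 2 / x ^ 2 := by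
    rw [← e1, ← e0]
  rw [e3, exp_change _ hle]
  refine intervalIntegral.integral_congr fun u _ => ?_
  show Real.exp u * (‖f (Real.log (Real.exp u + Real.exp u / T)) - f (Real.log (Real.exp u))‖ ^ 2 /
    Real.exp u ^ 2) = FF f (kT T) u
  have e2 : Real.exp (u + kT T) = Real.exp u + Real.exp u / T := by
    rw [Real.exp_add, exp_kT hTp]; ring
  rw [← e2, Real.log_exp, Real.log_exp]
  unfold FF
  have hne := (Real.exp_pos u).ne'
  rw [Real.exp_neg]
  field_simp

theorem kT_le {T : ℝ} (hT : 0 < T) : kT T ≤ 1 / T := by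
  unfold kT
  have := Real.log_le_sub_one_of_pos (x := 1 + 1 / T) (by positivity)
  linarith

theorem kT_ge {T : ℝ} (hT : 0 < T) : 1 / (T + 1) ≤ kT T := by
  unfold kT
  have h1 : Real.log (T / (T + 1)) ≤ T / (T + 1) - 1 := Real.log_le_sub_one_of_pos (by positivity)
  have h2 : Real.log (T / (T + 1)) = -Real.log (1 + 1 / T) := by
    rw [← Real.log_inv]
    congr 1
    field_simp
  have h3 : T / (T + 1) - 1 = -(1 / (T + 1)) := by field_simp; ring
  rw [h2, h3] at h1
  linarith

theorem LL_kT {T : ℝ} (hT : 1 ≤ T) : Real.log T ≤ LL (kT T) ∧ LL (kT T) ≤ Real.log T + 1 / T := by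
  have hTp : 0 < T := by linarith
  have hk := kT_pos hTp
  unfold LL
  constructor
  · apply Real.log_le_log hTp
    rw [le_div_iff₀ hk]
    have := mul_le_mul_of_nonneg_left (kT_le hTp) hTp.le
    rwa [mul_one_div, div_self hTp.ne'] at this
  · have h1 : 1 / kT T ≤ T + 1 := by
      rw [div_le_iff₀ hk]
      have := mul_le_mul_of_nonneg_left (kT_ge hTp) (by linarith : 0 ≤ T + 1)
      rwa [mul_one_div, div_self (by linarith)] at this
    have h2 := Real.log_le_log (by positivity) h1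
    have h3 : Real.log (T + 1) = Real.log T + Real.log (1 + 1 / T) := by
      rw [← Real.log_mul hTp.ne' (by positivity)]
      congr 1
      field_simp
    rw [h3] at h2
    have h4 := kT_le hTp
    unfold kT at h4
    linarith

theorem kT_tendsto : Tendsto kT atTop (𝓝[>] 0) := by
  refine tendsto_nhdsWithin_iff.2 ⟨?_, ?_⟩
  · refine squeeze_zero' (g := fun T : ℝ => 1 / T) ?_ ?_ ?_
    · filter_upwards [eventually_gt_atTop (0 : ℝ)] with T hT using (kT_pos hT).le
    · filter_upwards [eventually_gt_atTop (0 : ℝ)] with T hT using kT_le hT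
    · simpa only [one_div] using tendsto_inv_atTop_zero
  · filter_upwards [eventually_gt_atTop (0 : ℝ)] with T hT using kT_pos hT

/-- the inverse function -/
noncomputable def Tk (κ : ℝ) : ℝ := 1 / (Real.exp κ - 1)

theorem Tk_pos {κ : ℝ} (hκ : 0 < κ) : 0 < Tk κ := by
  unfold Tk
  have := Real.add_one_le_exp κ
  have : 0 < Real.exp κ - 1 := by linarith
  positivity

theorem kT_Tk (κ : ℝ) : kT (Tk κ) = κ := by
  unfold kT Tk
  rw [one_div_one_div, add_sub_cancel, Real.log_exp]

theorem Tk_tendsto : Tendsto Tk (𝓝[>] 0) atTop := by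
  have h1 : Tendsto (fun κ : ℝ => Real.exp κ - 1) (𝓝[>] 0) (𝓝[>] 0) := by
    refine tendsto_nhdsWithin_iff.2 ⟨?_, ?_⟩
    · have : Tendsto (fun κ : ℝ => Real.exp κ - 1) (𝓝 0) (𝓝 (Real.exp 0 - 1)) :=
        (Real.continuous_exp.sub continuous_const).tendsto 0
      rw [Real.exp_zero, sub_self] at this
      exact this.mono_left nhdsWithin_le_nhds
    · filter_upwards [ev_pos] with κ hκ
      have := Real.add_one_le_exp κ
      show 0 < Real.exp κ - 1
      linarith
  have h2 := tendsto_inv_nhdsGT_zero.comp h1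
  refine h2.congr fun κ => ?_
  show (Real.exp κ - 1)⁻¹ = 1 / (Real.exp κ - 1)
  rw [one_div]

theorem one_le_log {T : ℝ} (hT : 3 ≤ T) : 1 ≤ Real.log T := by
  rw [Real.le_log_iff_exp_le (by linarith)]
  have := Real.exp_one_lt_d9
  linarith

theorem norm_lim : Tendsto (fun T => T / Real.log T ^ 2 * (kT T * LL (kT T) ^ 2)) atTop (𝓝 1) := by
  have h1 : Tendsto (fun T : ℝ => T * kT T) atTop (𝓝 1) := by
    refine tendsto_of_tendsto_of_tendsto_of_le_of_le' (g := fun T : ℝ => T / (T + 1)) (h := fun _ => (1 : ℝ))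
      ?_ tendsto_const_nhds ?_ ?_
    · have h2 : Tendsto (fun T : ℝ => 1 - 1 / (T + 1)) atTop (𝓝 (1 - 0)) := by
        refine tendsto_const_nhds.sub ?_
        exact (tendsto_const_nhds (x := (1 : ℝ))).div_atTop (tendsto_atTop_add_const_right _ 1 tendsto_id)
      rw [sub_zero] at h2
      refine h2.congr' ?_
      filter_upwards [eventually_gt_atTop (0 : ℝ)] with T hT
      field_simp
      ring
    · filter_upwards [eventually_gt_atTop (0 : ℝ)] with T hT
      have := mul_le_mul_of_nonneg_left (kT_ge hT) hT.le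
      rwa [mul_one_div] at this
    · filter_upwards [eventually_gt_atTop (0 : ℝ)] with T hT
      have := mul_le_mul_of_nonneg_left (kT_le hT) hT.le
      rwa [mul_one_div, div_self hT.ne'] at this
  have h2 : Tendsto (fun T : ℝ => LL (kT T) / Real.log T) atTop (𝓝 1) := by
    refine tendsto_of_tendsto_of_tendsto_of_le_of_le' (g := fun _ : ℝ => (1 : ℝ))
      (h := fun T => 1 + 1 / Real.log T) tendsto_const_nhds ?_ ?_ ?_
    · have h3 : Tendsto (fun T : ℝ => 1 + 1 / Real.log T) atTop (𝓝 (1 + 0)) :=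
        tendsto_const_nhds.add ((tendsto_const_nhds (x := (1 : ℝ))).div_atTop Real.tendsto_log_atTop)
      rwa [add_zero] at h3
    · filter_upwards [eventually_ge_atTop (3 : ℝ)] with T hT
      have hl := one_le_log hT
      rw [le_div_iff₀ (by linarith), one_mul]
      exact (LL_kT (by linarith)).1
    · filter_upwards [eventually_ge_atTop (3 : ℝ)] with T hT
      have hl := one_le_log hT
      have hlp : 0 < Real.log T := by linarith
      rw [div_le_iff₀ hlp]
      have h4 := (LL_kT (T := T) (by linarith)).2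
      have h5 : 1 / T ≤ 1 := by rw [div_le_one (by linarith)]; linarith
      have e : (1 + 1 / Real.log T) * Real.log T = Real.log T + 1 := by field_simp
      rw [e]
      linarith
  have h3 := h1.mul (h2.pow 2)
  rw [one_pow, mul_one] at h3
  refine h3.congr' ?_
  filter_upwards [eventually_ge_atTop (3 : ℝ)] with T hT
  have hl := one_le_log hT
  have hlp : 0 < Real.log T := by linarith
  field_simp

section

variable {f : ℝ → ℂ} (hm : Measurable f) (hC : ∃ C : ℝ, ∀ t, ‖f t‖ ≤ C * Real.exp t)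
variable {b M δ : ℝ} (hb : 1 ≤ b) (hM : 0 ≤ M) (hδ : 0 < δ)

include hm hC hb hM hδ in
theorem k_of_T (h : ∀ᶠ T : ℝ in atTop, VT f T (b + 1) ≤ M) :
    ∀ᶠ κ : ℝ in 𝓝[>] 0, ∫ u in (LL κ)..(b * LL κ), FF f κ u ≤ (1 + δ) * M * (κ * LL κ ^ 2) := by
  have h1 := norm_lim.comp Tk_tendsto
  have hlt : 1 / (1 + δ) < 1 := by rw [div_lt_one (by positivity)]; linarith
  filter_upwards [Tk_tendsto.eventually h, h1.eventually (le_mem_nhds hlt), ev_pos,
    Tk_tendsto.eventually_ge_atTop (Real.exp (max 1 b))] with κ k1 k2 hκ k3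
  set T : ℝ := Tk κ with hT
  have hTp : 0 < T := Tk_pos hκ
  have hlT : max 1 b ≤ Real.log T := by rwa [Real.le_log_iff_exp_le hTp]
  have hlT1 : 1 ≤ Real.log T := (le_max_left _ _).trans hlT
  have hlTb : b ≤ Real.log T := (le_max_right _ _).trans hlT
  have hT1 : 1 ≤ T := by
    have h3 := Real.add_one_le_exp (max 1 b)
    have h4 : 1 ≤ max 1 b := le_max_left _ _
    linarith
  have hkT : kT T = κ := kT_Tk κ
  obtain ⟨l1, l2⟩ := LL_kT hT1
  rw [hkT] at l1 l2
  have hLp : 0 < LL κ := by linarith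
  have hlTp : 0 < Real.log T := by linarith
  have k2' : 1 / (1 + δ) ≤ T / Real.log T ^ 2 * (κ * LL κ ^ 2) := by
    have : 1 / (1 + δ) ≤ T / Real.log T ^ 2 * (kT T * LL (kT T) ^ 2) := k2
    rwa [hkT] at this
  have hT1' : 1 / T ≤ 1 := by rw [div_le_one hTp]; exact hT1
  rw [VT_eq f hT1 (by linarith), hkT] at k1
  set J : ℝ := ∫ u in (Real.log T)..((b + 1) * Real.log T), FF f κ u with hJ
  have hmono : ∫ u in (LL κ)..(b * LL κ), FF f κ u ≤ J := by
    refine intervalIntegral.integral_mono_interval ?_ ?_ ?_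
      (ae_of_all _ fun u => FF_nonneg f κ u) (FF_ii hm hC _ _ _)
    · exact l1
    · nlinarith
    · have : b * LL κ ≤ b * (Real.log T + 1) := mul_le_mul_of_nonneg_left (by linarith) (by linarith)
      linarith
  refine hmono.trans ?_
  have hq : 0 < Real.log T ^ 2 / T := by positivity
  have e1 : J = T / Real.log T ^ 2 * J * (Real.log T ^ 2 / T) := by field_simp
  rw [e1]
  have h2 : Real.log T ^ 2 / T ≤ (1 + δ) * (κ * LL κ ^ 2) := by
    rw [div_le_iff₀ (by positivity)] at k2'
    have h3 := mul_le_mul_of_nonneg_right k2' hq.le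
    have e2 : T / Real.log T ^ 2 * (κ * LL κ ^ 2) * (1 + δ) * (Real.log T ^ 2 / T) =
      (1 + δ) * (κ * LL κ ^ 2) := by field_simp
    rw [e2, one_mul] at h3
    exact h3
  calc T / Real.log T ^ 2 * J * (Real.log T ^ 2 / T) ≤ M * (Real.log T ^ 2 / T) :=
        mul_le_mul_of_nonneg_right k1 hq.le
    _ ≤ M * ((1 + δ) * (κ * LL κ ^ 2)) := mul_le_mul_of_nonneg_left h2 hM
    _ = _ := by ring

include hm hC hb hM hδ in
theorem T_of_k_up (h : ∀ᶠ κ : ℝ in 𝓝[>] 0, ∫ u in (0 : ℝ)..(b * LL κ), FF f κ u ≤ M * (κ * LL κ ^ 2)) :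
    ∀ᶠ T : ℝ in atTop, VT f T b ≤ (1 + δ) * M := by
  filter_upwards [kT_tendsto.eventually h, norm_lim.eventually (ge_mem_nhds (show (1 : ℝ) < 1 + δ by linarith)),
    eventually_ge_atTop (3 : ℝ)] with T k1 k2 hT
  have hT1 : 1 ≤ T := by linarith
  have hTp : 0 < T := by linarith
  have hl := one_le_log hT
  have hlp : 0 < Real.log T := by linarith
  obtain ⟨l1, l2⟩ := LL_kT hT1
  rw [VT_eq f hT1 hb]
  have hmono : ∫ u in (Real.log T)..(b * Real.log T), FF f (kT T) u ≤
      ∫ u in (0 : ℝ)..(b * LL (kT T)), FF f (kT T) u := by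
    refine intervalIntegral.integral_mono_interval (by linarith) ?_ ?_
      (ae_of_all _ fun u => FF_nonneg f _ u) (FF_ii hm hC _ _ _)
    · nlinarith
    · exact mul_le_mul_of_nonneg_left l1 (by linarith)
  have hq : 0 < T / Real.log T ^ 2 := by positivity
  calc T / Real.log T ^ 2 * ∫ u in (Real.log T)..(b * Real.log T), FF f (kT T) u
      ≤ T / Real.log T ^ 2 * (M * (kT T * LL (kT T) ^ 2)) :=
        mul_le_mul_of_nonneg_left (hmono.trans k1) hq.le
    _ = T / Real.log T ^ 2 * (kT T * LL (kT T) ^ 2) * M := by ring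
    _ ≤ _ := mul_le_mul_of_nonneg_right k2 hM

include hm hC hb hM hδ in
theorem T_of_k_low (h : ∀ᶠ κ : ℝ in 𝓝[>] 0, M * (κ * LL κ ^ 2) ≤ ∫ u in (LL κ)..(b * LL κ), FF f κ u) :
    ∀ᶠ T : ℝ in atTop, (1 - δ) * M ≤ VT f T (b + 1) := by
  filter_upwards [kT_tendsto.eventually h, norm_lim.eventually (le_mem_nhds (show 1 - δ < (1 : ℝ) by linarith)),
    eventually_ge_atTop (3 : ℝ), Real.tendsto_log_atTop.eventually_ge_atTop b] with T k1 k2 hT hlb
  have hT1 : 1 ≤ T := by linarith
  have hTp : 0 < T := by linarith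
  have hl := one_le_log hT
  have hlp : 0 < Real.log T := by linarith
  obtain ⟨l1, l2⟩ := LL_kT hT1
  have hT1' : 1 / T ≤ 1 := by rw [div_le_one hTp]; exact hT1
  have hLp : 0 < LL (kT T) := by linarith
  rw [VT_eq f hT1 (by linarith)]
  have hmono : ∫ u in (LL (kT T))..(b * LL (kT T)), FF f (kT T) u ≤
      ∫ u in (Real.log T)..((b + 1) * Real.log T), FF f (kT T) u := by
    refine intervalIntegral.integral_mono_interval ?_ ?_ ?_
      (ae_of_all _ fun u => FF_nonneg f _ u) (FF_ii hm hC _ _ _)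
    · exact l1
    · nlinarith
    · have : b * LL (kT T) ≤ b * (Real.log T + 1) := mul_le_mul_of_nonneg_left (by linarith) (by linarith)
      linarith
  have hq : 0 < T / Real.log T ^ 2 := by positivity
  calc (1 - δ) * M ≤ T / Real.log T ^ 2 * (kT T * LL (kT T) ^ 2) * M := mul_le_mul_of_nonneg_right k2 hM
    _ = T / Real.log T ^ 2 * (M * (kT T * LL (kT T) ^ 2)) := by ring
    _ ≤ _ := mul_le_mul_of_nonneg_left (k1.trans hmono) hq.le

end

theorem t_KT : S_KT := by
  intro f hm hC b M δ hb hM hδ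
  exact ⟨fun h => k_of_T hm hC hb hM hδ h, fun h => T_of_k_up hm hC hb hM hδ h,
    fun h => T_of_k_low hm hC hb hM hδ h⟩

end Q227.CP
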