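import Pool.Agent.Q227.CP.Base
import Pool.Agent.H336R2.V.ExistsLam

/-!
# CP-WT: the weight
-/

set_option autoImplicit false

namespace Q227.CP

open MeasureTheory Filter Topology Set Complex
open Pool.Agent.Q253.CP
open Pool.Agent.Q253.HV (pt)

theorem pt_ne {σ : ℝ} (hσ : 1 / 2 ≤ σ) (y : ℝ) : pt σ y ≠ 0 := by
  intro h
  have := congrArg Complex.re h
  simp [pt] at this
  linarith

theorem sq_norm_pt (σ y : ℝ) : ‖pt σ y‖ ^ 2 = σ ^ 2 + y ^ 2 := by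
  rw [Complex.sq_norm, Complex.normSq_apply]
  simp [pt]
  ring

theorem sin_sinc (x : ℝ) : x * Real.sinc x = Real.sin x := by
  by_cases h : x = 0
  · simp [h]
  · rw [Real.sinc_of_ne_zero h]
    field_simp

theorem hh_eq {κ σ : ℝ} (y : ℝ) : hh κ σ y =
    ((Real.exp (κ * σ) - 1) ^ 2 + Real.exp (κ * σ) * (κ ^ 2 * y ^ 2 * Real.sinc (κ * y / 2) ^ 2)) /
      (σ ^ 2 + y ^ 2) := by
  unfold hh
  rw [norm_div, div_pow, sq_norm_pt]
  congr 1
  have e1 : (κ : ℂ) * pt σ y = ((κ * σ : ℝ) : ℂ) + ((κ * y : ℝ) : ℂ) * I := by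
    unfold pt
    push_cast
    ring
  rw [e1, Complex.sq_norm, Complex.normSq_apply, Complex.exp_add, Complex.exp_mul_I, ← Complex.ofReal_exp,
    ← Complex.ofReal_cos, ← Complex.ofReal_sin]
  simp only [Complex.sub_re, Complex.mul_re, Complex.ofReal_re, Complex.add_re, Complex.I_re, mul_zero,
    Complex.ofReal_im, Complex.I_im, mul_one, sub_zero, Complex.add_im, Complex.mul_im, add_zero,
    zero_add, Complex.one_re, Complex.sub_im, Complex.one_im, zero_mul]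
  have e2 : κ ^ 2 * y ^ 2 * Real.sinc (κ * y / 2) ^ 2 = 4 * Real.sin (κ * y / 2) ^ 2 := by
    rw [← sin_sinc]
    ring
  have e3 : Real.cos (κ * y) = 1 - 2 * Real.sin (κ * y / 2) ^ 2 := by
    have := Real.cos_two_mul' (κ * y / 2)
    have h2 := Real.cos_sq_add_sin_sq (κ * y / 2)
    rw [show 2 * (κ * y / 2) = κ * y by ring] at this
    linarith
  have e4 := Real.cos_sq_add_sin_sq (κ * y)
  rw [e2]
  linear_combination (Real.exp (κ * σ)) ^ 2 * e4 - 2 * Real.exp (κ * σ) * e3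

theorem hh_nonneg (κ σ y : ℝ) : 0 ≤ hh κ σ y := by
  unfold hh
  positivity

theorem hh_cont {κ σ : ℝ} (hσ : 1 / 2 ≤ σ) : Continuous (hh κ σ) := by
  unfold hh
  refine ((Continuous.div ?_ ?_ (pt_ne hσ)).norm).pow 2
  · unfold pt
    fun_prop
  · unfold pt
    fun_prop

section

variable {κ σ : ℝ} (hκ : 0 < κ) (hκ1 : κ ≤ 1 / 4) (hσ : 1 / 2 ≤ σ) (hσ1 : σ ≤ 1)

include hκ hκ1 hσ hσ1 in
theorem E_bounds : κ * σ ≤ Real.exp (κ * σ) - 1 ∧ Real.exp (κ * σ) - 1 ≤ 2 * (κ * σ) ∧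
    1 ≤ Real.exp (κ * σ) ∧ Real.exp (κ * σ) ≤ 2 := by
  have h0 : 0 < κ * σ := by positivity
  have h1 : κ * σ ≤ 1 / 4 := by nlinarith
  have h2 := Real.add_one_le_exp (κ * σ)
  have h3 : Real.exp (κ * σ) ≤ 1 / (1 - κ * σ) := by
    have h4 := Real.add_one_le_exp (-(κ * σ))
    rw [Real.exp_neg] at h4
    have h5 : 0 < 1 - κ * σ := by linarith
    rw [le_div_iff₀ h5]
    have h6 : Real.exp (κ * σ) * (1 - κ * σ) ≤ Real.exp (κ * σ) * (Real.exp (κ * σ))⁻¹ :=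
      mul_le_mul_of_nonneg_left (by linarith) (Real.exp_pos _).le
    rwa [mul_inv_cancel₀ (Real.exp_pos _).ne'] at h6
  have h7 : 1 / (1 - κ * σ) ≤ 1 + 2 * (κ * σ) := by
    rw [div_le_iff₀ (by linarith)]
    nlinarith
  refine ⟨by linarith, by linarith, by linarith, by linarith⟩

theorem S_le (y : ℝ) : Real.sinc (κ * y / 2) ^ 2 ≤ 1 := by
  have := Real.abs_sinc_le_one (κ * y / 2)
  rw [← sq_abs]
  nlinarith [abs_nonneg (Real.sinc (κ * y / 2))]

theorem yS_le (y : ℝ) : κ ^ 2 * y ^ 2 * Real.sinc (κ * y / 2) ^ 2 ≤ 4 := by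
  have e2 : κ ^ 2 * y ^ 2 * Real.sinc (κ * y / 2) ^ 2 = 4 * Real.sin (κ * y / 2) ^ 2 := by
    rw [← sin_sinc]
    ring
  rw [e2]
  nlinarith [Real.sin_sq_le_one (κ * y / 2)]

theorem den_pos (hσ : 1 / 2 ≤ σ) (y : ℝ) : 0 < σ ^ 2 + y ^ 2 := by positivity

include hκ hκ1 hσ hσ1 in
theorem hh_low (y : ℝ) : κ ^ 2 * Real.sinc (κ * y / 2) ^ 2 ≤ hh κ σ y := by
  obtain ⟨h1, h2, h3, h4⟩ := E_bounds hκ hκ1 hσ hσ1
  rw [hh_eq, le_div_iff₀ (den_pos hσ y)]
  set E := Real.exp (κ * σ) with hE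
  set S := Real.sinc (κ * y / 2) ^ 2 with hS
  have hS0 : 0 ≤ S := sq_nonneg _
  have hS1 : S ≤ 1 := S_le y
  have h5 : (κ * σ) ^ 2 ≤ (E - 1) ^ 2 := pow_le_pow_left₀ (by positivity) h1 2
  have h6 : κ ^ 2 * σ ^ 2 * S ≤ (κ * σ) ^ 2 := by
    have : (κ * σ) ^ 2 = κ ^ 2 * σ ^ 2 * 1 := by ring
    rw [this]
    exact mul_le_mul_of_nonneg_left hS1 (by positivity)
  have h7 : κ ^ 2 * y ^ 2 * S ≤ E * (κ ^ 2 * y ^ 2 * S) := by
    have : 0 ≤ κ ^ 2 * y ^ 2 * S := by positivity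
    nlinarith
  nlinarith

include hκ hκ1 hσ hσ1 in
theorem hh_up (y : ℝ) : hh κ σ y ≤ κ ^ 2 * Real.sinc (κ * y / 2) ^ 2 +
    (16 * κ ^ 2 * (1 + y ^ 2)⁻¹ + 2 * κ * (κ ^ 2 * Real.sinc (κ * y / 2) ^ 2)) := by
  obtain ⟨h1, h2, h3, h4⟩ := E_bounds hκ hκ1 hσ hσ1
  rw [hh_eq, div_le_iff₀ (den_pos hσ y)]
  set E := Real.exp (κ * σ) with hE
  set S := Real.sinc (κ * y / 2) ^ 2 with hS
  have hS0 : 0 ≤ S := sq_nonneg _
  have hS1 : S ≤ 1 := S_le y
  have h5 : (E - 1) ^ 2 ≤ 4 * κ ^ 2 := by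
    have : E - 1 ≤ 2 * κ := by nlinarith
    calc (E - 1) ^ 2 ≤ (2 * κ) ^ 2 := pow_le_pow_left₀ (by linarith) this 2
      _ = 4 * κ ^ 2 := by ring
  have h6 : (E - 1) * (κ ^ 2 * y ^ 2 * S) ≤ 2 * κ * (κ ^ 2 * y ^ 2 * S) := by
    refine mul_le_mul_of_nonneg_right ?_ (by positivity)
    nlinarith
  have h7 : 4 * κ ^ 2 ≤ 16 * κ ^ 2 * (1 + y ^ 2)⁻¹ * (σ ^ 2 + y ^ 2) := by
    have h8 : (0 : ℝ) < 1 + y ^ 2 := by positivity
    have h9 : 1 / 4 ≤ (1 + y ^ 2)⁻¹ * (σ ^ 2 + y ^ 2) := by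
      rw [inv_mul_eq_div, le_div_iff₀ h8]
      nlinarith
    nlinarith [sq_nonneg κ]
  have h8 : 0 ≤ κ ^ 2 * S * σ ^ 2 := by positivity
  have h9 : 0 ≤ 2 * κ * (κ ^ 2 * S) * σ ^ 2 := by positivity
  nlinarith

include hκ hκ1 hσ hσ1 in
theorem hh_cauchy (y : ℝ) : hh κ σ y ≤ κ ^ 2 * (13 * (1 + (κ * y) ^ 2)⁻¹) := by
  obtain ⟨h1, h2, h3, h4⟩ := E_bounds hκ hκ1 hσ hσ1
  rw [hh_eq, div_le_iff₀ (den_pos hσ y)]
  set E := Real.exp (κ * σ) with hE
  set S := Real.sinc (κ * y / 2) ^ 2 with hS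
  have hS0 : 0 ≤ S := sq_nonneg _
  have hS1 : S ≤ 1 := S_le y
  have hS2 : κ ^ 2 * y ^ 2 * S ≤ 4 := yS_le y
  have h8 : (0 : ℝ) < 1 + (κ * y) ^ 2 := by positivity
  have e1 : κ ^ 2 * (13 * (1 + (κ * y) ^ 2)⁻¹) * (σ ^ 2 + y ^ 2) =
      13 * (κ ^ 2 * (σ ^ 2 + y ^ 2)) / (1 + (κ * y) ^ 2) := by field_simp
  rw [e1, le_div_iff₀ h8]
  have h5 : (E - 1) ^ 2 ≤ 4 * (κ ^ 2 * σ ^ 2) := by
    calc (E - 1) ^ 2 ≤ (2 * (κ * σ)) ^ 2 := pow_le_pow_left₀ (by linarith [mul_pos hκ (by linarith : 0 < σ)]) h2 2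
      _ = 4 * (κ ^ 2 * σ ^ 2) := by ring
  set t : ℝ := κ ^ 2 * y ^ 2 with ht
  have ht0 : 0 ≤ t := by positivity
  have et : (κ * y) ^ 2 = t := by rw [ht]; ring
  rw [et]
  have h6 : E * (t * S) ≤ 2 * t := by
    have : t * S ≤ t := by nlinarith
    have : 0 ≤ t * S := by positivity
    nlinarith
  have h7 : E * (t * S) ≤ 8 := by
    have : 0 ≤ t * S := by positivity
    nlinarith
  set r : ℝ := κ ^ 2 * σ ^ 2 with hr
  have hr0 : 0 ≤ r := by positivity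
  have hr1 : r ≤ 1 / 16 := by
    have a1 : κ ^ 2 ≤ 1 / 16 := by nlinarith
    have a2 : σ ^ 2 ≤ 1 := by nlinarith
    calc r ≤ 1 / 16 * 1 := mul_le_mul a1 a2 (by positivity) (by norm_num)
      _ = _ := by ring
  have e2 : κ ^ 2 * (σ ^ 2 + y ^ 2) = r + t := by rw [hr, ht]; ring
  rw [e2]
  have h10 : ((E - 1) ^ 2 + E * (t * S)) * (1 + t) = ((E - 1) ^ 2 + E * (t * S)) + (E - 1) ^ 2 * t +
      E * (t * S) * t := by ring
  rw [h10]
  have h11 : (E - 1) ^ 2 * t ≤ 4 * r * t := mul_le_mul_of_nonneg_right h5 ht0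
  have h12 : E * (t * S) * t ≤ 8 * t := mul_le_mul_of_nonneg_right h7 ht0
  nlinarith

end

theorem hh_mono {κ σ σ' : ℝ} (hκ : 0 < κ) (hσ' : 1 / 2 ≤ σ') (hσσ : σ' ≤ σ) (hσ1 : σ ≤ 1) (y : ℝ) :
    hh κ σ' y ≤ 4 * hh κ σ y := by
  rw [hh_eq, hh_eq, div_le_iff₀ (den_pos hσ' y)]
  have hσ : 1 / 2 ≤ σ := hσ'.trans hσσ
  have h1 : Real.exp (κ * σ') ≤ Real.exp (κ * σ) := Real.exp_le_exp.2 (by nlinarith)
  have h0 : 1 ≤ Real.exp (κ * σ') := Real.one_le_exp (by positivity)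
  set E := Real.exp (κ * σ) with hE
  set E' := Real.exp (κ * σ') with hE'
  set Z := κ ^ 2 * y ^ 2 * Real.sinc (κ * y / 2) ^ 2 with hZ
  have hZ0 : 0 ≤ Z := by positivity
  have h2 : (E' - 1) ^ 2 + E' * Z ≤ (E - 1) ^ 2 + E * Z := by
    have a1 : (E' - 1) ^ 2 ≤ (E - 1) ^ 2 := pow_le_pow_left₀ (by linarith) (by linarith) 2
    have a2 : E' * Z ≤ E * Z := mul_le_mul_of_nonneg_right h1 hZ0
    linarith
  have hN : 0 ≤ (E - 1) ^ 2 + E * Z := by
    have : 0 ≤ E := by positivity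
    positivity
  have h3 : σ ^ 2 + y ^ 2 ≤ 4 * (σ' ^ 2 + y ^ 2) := by nlinarith
  have h4 : 4 * (((E - 1) ^ 2 + E * Z) / (σ ^ 2 + y ^ 2)) * (σ' ^ 2 + y ^ 2) =
      ((E - 1) ^ 2 + E * Z) * ((4 * (σ' ^ 2 + y ^ 2)) / (σ ^ 2 + y ^ 2)) := by ring
  rw [h4]
  have h5 : 1 ≤ (4 * (σ' ^ 2 + y ^ 2)) / (σ ^ 2 + y ^ 2) := by
    rw [le_div_iff₀ (den_pos hσ y), one_mul]
    exact h3
  calc (E' - 1) ^ 2 + E' * Z ≤ ((E - 1) ^ 2 + E * Z) * 1 := by rw [mul_one]; exact h2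
    _ ≤ _ := mul_le_mul_of_nonneg_left h5 hN

theorem int_even {f : ℝ → ℝ} (he : ∀ x, f (-x) = f x) (h : IntegrableOn f (Ioi 0)) : Integrable f := by
  have h1 : Integrable ((Ioi (0 : ℝ)).indicator f) := h.integrable_indicator measurableSet_Ioi
  have h2 := h1.comp_neg
  have h3 := h1.add h2
  refine h3.congr ?_
  have h0 : ∀ᵐ x : ℝ, x ≠ 0 := by
    rw [ae_iff]
    simp
  filter_upwards [h0] with x hx
  simp only [Pi.add_apply, indicator, mem_Ioi]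
  rcases lt_or_gt_of_ne hx with h4 | h4
  · rw [if_neg (by linarith), if_pos (by linarith), zero_add, he]
  · rw [if_pos h4, if_neg (by linarith), add_zero]

/-- the majorant -/
noncomputable def Psi (x : ℝ) : ℝ :=
  (1 + 32 * (Real.sqrt (1 + |x|) + |x| ^ (-(1 / 2 : ℝ)))) * (13 * (1 + x ^ 2)⁻¹)

theorem Psi_int : Integrable Psi := by
  have i1 : Integrable fun x : ℝ => (1 + x ^ 2)⁻¹ := integrable_inv_one_add_sq
  have i2 : Integrable fun x : ℝ => Real.sqrt (1 + |x|) * (1 + x ^ 2)⁻¹ := by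
    have h := integrable_rpow_neg_one_add_norm_sq (E := ℝ) (r := 3 / 2) (μ := volume) (by simp; norm_num)
    refine (h.const_mul 2).mono' (by fun_prop) (ae_of_all _ fun x => ?_)
    have hp : (0 : ℝ) < 1 + x ^ 2 := by positivity
    rw [Real.norm_of_nonneg (by positivity), Real.norm_eq_abs, sq_abs]
    have e1 : (1 + x ^ 2) ^ (-(3 / 2 : ℝ) / 2) = (1 + x ^ 2) ^ (1 / 4 : ℝ) * (1 + x ^ 2)⁻¹ := by
      rw [← Real.rpow_neg_one, ← Real.rpow_add hp]
      norm_num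
    rw [e1, ← mul_assoc]
    refine mul_le_mul_of_nonneg_right ?_ (by positivity)
    set z : ℝ := (1 + x ^ 2) ^ (1 / 4 : ℝ) with hz
    have hz0 : 0 ≤ z := by positivity
    have hz4 : z ^ 4 = 1 + x ^ 2 := by
      rw [hz, ← Real.rpow_natCast, ← Real.rpow_mul hp.le]
      norm_num
    rw [Real.sqrt_le_left (by positivity)]
    have h1 : 1 ≤ z ^ 2 := by nlinarith [sq_nonneg x, sq_nonneg (z ^ 2)]
    have h2 : |x| ≤ z ^ 2 := by
      refine abs_le_of_sq_le_sq ?_ (by positivity)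
      nlinarith
    nlinarith
  have i3 : Integrable fun x : ℝ => |x| ^ (-(1 / 2 : ℝ)) * (1 + x ^ 2)⁻¹ := by
    refine int_even (fun x => by simp) ?_
    rw [← Ioc_union_Ioi_eq_Ioi (zero_le_one (α := ℝ))]
    refine IntegrableOn.union ?_ ?_
    · have h := (intervalIntegral.intervalIntegrable_rpow' (a := 0) (b := 1) (r := -(1 / 2 : ℝ)) (by norm_num)).1
      refine h.mono' (by fun_prop) ?_
      filter_upwards [ae_restrict_mem measurableSet_Ioc] with x hx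
      rw [Real.norm_of_nonneg (by positivity), abs_of_pos hx.1]
      have h1 : (1 + x ^ 2)⁻¹ ≤ 1 := inv_le_one_of_one_le₀ (by nlinarith)
      have h2 : 0 ≤ x ^ (-(1 / 2 : ℝ)) := Real.rpow_nonneg hx.1.le _
      nlinarith
    · refine (i1.integrableOn (s := Ioi 1)).mono' (by fun_prop) ?_
      filter_upwards [ae_restrict_mem measurableSet_Ioi] with x hx
      have hx1 : (1 : ℝ) < x := hx
      rw [Real.norm_of_nonneg (by positivity), abs_of_pos (by linarith)]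
      have h1 : x ^ (-(1 / 2 : ℝ)) ≤ 1 := Real.rpow_le_one_of_one_le_of_nonpos hx1.le (by norm_num)
      have h2 : 0 ≤ (1 + x ^ 2)⁻¹ := by positivity
      nlinarith
  have h := ((i1.const_mul 13).add (i2.const_mul (32 * 13))).add (i3.const_mul (32 * 13))
  refine h.congr (ae_of_all _ fun x => ?_)
  simp only [Pi.add_apply, Psi]
  ring

theorem log_le_quarter {t : ℝ} (ht : 0 < t) : |Real.log t| ≤ 4 * (t ^ (1 / 4 : ℝ) + t ^ (-(1 / 4 : ℝ))) := by
  have h1 : Real.log t = 4 * Real.log (t ^ (1 / 4 : ℝ)) := by rw [Real.log_rpow ht]; ring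
  have h2 : Real.log t = -(4 * Real.log (t ^ (-(1 / 4 : ℝ)))) := by rw [Real.log_rpow ht]; ring
  have p1 : 0 < t ^ (1 / 4 : ℝ) := Real.rpow_pos_of_pos ht _
  have p2 : 0 < t ^ (-(1 / 4 : ℝ)) := Real.rpow_pos_of_pos ht _
  have h3 := Real.log_le_sub_one_of_pos p1
  have h4 := Real.log_le_sub_one_of_pos p2
  rw [abs_le]
  constructor <;> linarith

theorem log_sq_le {t : ℝ} (ht : 0 < t) : Real.log t ^ 2 ≤ 32 * (Real.sqrt t + t ^ (-(1 / 2 : ℝ))) := by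
  have h := log_le_quarter ht
  rw [← sq_abs]
  have p1 : 0 < t ^ (1 / 4 : ℝ) := Real.rpow_pos_of_pos ht _
  have p2 : 0 < t ^ (-(1 / 4 : ℝ)) := Real.rpow_pos_of_pos ht _
  have e1 : (t ^ (1 / 4 : ℝ)) ^ 2 = Real.sqrt t := by
    rw [← Real.rpow_natCast, ← Real.rpow_mul ht.le, Real.sqrt_eq_rpow]
    norm_num
  have e2 : (t ^ (-(1 / 4 : ℝ))) ^ 2 = t ^ (-(1 / 2 : ℝ)) := by
    rw [← Real.rpow_natCast, ← Real.rpow_mul ht.le]
    norm_num
  rw [← e1, ← e2]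
  calc |Real.log t| ^ 2 ≤ (4 * (t ^ (1 / 4 : ℝ) + t ^ (-(1 / 4 : ℝ)))) ^ 2 :=
        pow_le_pow_left₀ (abs_nonneg _) h 2
    _ ≤ _ := by nlinarith [sq_nonneg (t ^ (1 / 4 : ℝ) - t ^ (-(1 / 4 : ℝ)))]

theorem Psi_ge {κ x : ℝ} (hκ : 0 < κ) (hκ1 : κ ≤ 1 / 4) (hx : x ≠ 0) :
    (13 * (1 + x ^ 2)⁻¹) * (1 + Real.log (2 * κ + |x|) ^ 2) ≤ Psi x := by
  have hx0 : 0 < |x| := abs_pos.2 hx
  have ht : 0 < 2 * κ + |x| := by positivity
  unfold Psi
  rw [mul_comm]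
  refine mul_le_mul_of_nonneg_right ?_ (by positivity)
  have h1 := log_sq_le ht
  have h2 : Real.sqrt (2 * κ + |x|) ≤ Real.sqrt (1 + |x|) := Real.sqrt_le_sqrt (by linarith)
  have h3 : (2 * κ + |x|) ^ (-(1 / 2 : ℝ)) ≤ |x| ^ (-(1 / 2 : ℝ)) :=
    Real.rpow_le_rpow_of_nonpos hx0 (by linarith) (by norm_num)
  linarith

theorem Psi_nonneg (x : ℝ) : 0 ≤ Psi x := by
  unfold Psi
  positivity

theorem sinc_int {κ : ℝ} (hκ : 0 < κ) : Integrable (fun y : ℝ => κ ^ 2 * Real.sinc (κ * y / 2) ^ 2) ∧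
    ∫ y : ℝ, κ ^ 2 * Real.sinc (κ * y / 2) ^ 2 = 2 * Real.pi * κ := by
  have h1 := H336V.ExistsLam.sinc_sq_integrable
  have hc : κ / (2 * Real.pi) ≠ 0 := by positivity
  have e : ∀ y : ℝ, κ * y / 2 = Real.pi * (κ / (2 * Real.pi) * y) := by
    intro y
    field_simp
  have h2 : Integrable (fun y : ℝ => Real.sinc (κ * y / 2) ^ 2) := by
    simp only [e]
    exact h1.comp_mul_left' hc
  refine ⟨h2.const_mul _, ?_⟩
  have h3 : ∫ w : ℝ, Real.sinc (Real.pi * w) ^ 2 = 1 := by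
    have h5 := integral_comp_abs (f := fun ξ : ℝ => Real.sinc (Real.pi * ξ) ^ 2)
    have h6 : ∀ ξ : ℝ, Real.sinc (Real.pi * |ξ|) ^ 2 = Real.sinc (Real.pi * ξ) ^ 2 := by
      intro ξ
      rcases abs_choice ξ with h | h
      · rw [h]
      · rw [h, mul_neg, Real.sinc_neg]
    simp_rw [h6] at h5
    rw [h5, H336V.ExistsLam.integral_sinc_sq]
    norm_num
  rw [integral_const_mul]
  simp only [e]
  rw [Measure.integral_comp_mul_left (fun w => Real.sinc (Real.pi * w) ^ 2), h3, abs_of_pos (by positivity),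
    smul_eq_mul]
  field_simp

theorem log_split {κ : ℝ} (hκ : 0 < κ) (y : ℝ) :
    Real.log (2 + |y|) = LL κ + Real.log (2 * κ + |κ * y|) := by
  unfold LL
  rw [← Real.log_mul (by positivity) (by positivity), abs_mul, abs_of_pos hκ]
  congr 1
  field_simp

theorem LL_ge {κ : ℝ} (hκ : 0 < κ) (hκ1 : κ ≤ 1 / 4) : 1 ≤ LL κ := by
  unfold LL
  rw [Real.le_log_iff_exp_le (by positivity)]
  have h1 : 4 ≤ 1 / κ := by rw [le_div_iff₀ hκ]; linarith
  have := Real.exp_one_lt_d9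
  linarith

theorem kLL_le {κ : ℝ} (hκ : 0 < κ) : κ * LL κ ≤ 1 := by
  unfold LL
  have h := Real.log_le_sub_one_of_pos (x := 1 / κ) (by positivity)
  have h2 : κ * Real.log (1 / κ) ≤ κ * (1 / κ) := mul_le_mul_of_nonneg_left (by linarith) hκ.le
  rwa [mul_one_div_cancel hκ.ne'] at h2

theorem t_WT : S_WT := by
  set c : ℝ := ∫ x, Psi x with hc
  have hc0 : 0 ≤ c := integral_nonneg Psi_nonneg
  refine ⟨4 * c + 100 * Real.pi + 13, by positivity, fun κ σ hκ hκ1 hσ hσ1 => ?_⟩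
  have hpi := Real.pi_pos
  have hLL := LL_ge hκ hκ1
  have hkLL := kLL_le hκ
  have hscale : ∀ g : ℝ → ℝ, ∫ y, κ ^ 2 * g (κ * y) = κ * ∫ x, g x := by
    intro g
    rw [integral_const_mul, Measure.integral_comp_mul_left g, abs_of_pos (by positivity), smul_eq_mul]
    field_simp
  have hscaleI : ∀ g : ℝ → ℝ, Integrable g → Integrable fun y => κ ^ 2 * g (κ * y) := by
    intro g hg
    exact (hg.comp_mul_left' hκ.ne').const_mul _
  have hcont : Continuous (hh κ σ) := hh_cont hσ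
  have i1 : Integrable fun x : ℝ => 13 * (1 + x ^ 2)⁻¹ := integrable_inv_one_add_sq.const_mul 13
  have hhI : Integrable (hh κ σ) := by
    refine (hscaleI _ i1).mono' hcont.aestronglyMeasurable (ae_of_all _ fun y => ?_)
    rw [Real.norm_of_nonneg (hh_nonneg _ _ _)]
    exact hh_cauchy hκ hκ1 hσ hσ1 y
  obtain ⟨s1, s2⟩ := sinc_int hκ
  -- (1)
  have hmass : |(∫ y, hh κ σ y) - 2 * Real.pi * κ| ≤ 20 * Real.pi * κ ^ 2 := by
    have i2 : Integrable fun y : ℝ => 16 * κ ^ 2 * (1 + y ^ 2)⁻¹ + 2 * κ * (κ ^ 2 * Real.sinc (κ * y / 2) ^ 2) :=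
      (integrable_inv_one_add_sq.const_mul _).add (s1.const_mul _)
    have a1 : 2 * Real.pi * κ ≤ ∫ y, hh κ σ y := by
      rw [← s2]
      exact integral_mono s1 hhI fun y => hh_low hκ hκ1 hσ hσ1 y
    have a2 : ∫ y, hh κ σ y ≤ 2 * Real.pi * κ + (16 * κ ^ 2 * Real.pi + 2 * κ * (2 * Real.pi * κ)) := by
      calc ∫ y, hh κ σ y ≤ ∫ y, (κ ^ 2 * Real.sinc (κ * y / 2) ^ 2 +
            (16 * κ ^ 2 * (1 + y ^ 2)⁻¹ + 2 * κ * (κ ^ 2 * Real.sinc (κ * y / 2) ^ 2))) :=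
            integral_mono hhI (s1.add i2) fun y => hh_up hκ hκ1 hσ hσ1 y
        _ = _ := by
            have q1 : ∫ y : ℝ, 16 * κ ^ 2 * (1 + y ^ 2)⁻¹ = 16 * κ ^ 2 * Real.pi := by
              rw [integral_const_mul, integral_univ_inv_one_add_sq]
            have q2 : ∫ y : ℝ, 2 * κ * (κ ^ 2 * Real.sinc (κ * y / 2) ^ 2) = 2 * κ * (2 * Real.pi * κ) := by
              rw [integral_const_mul, s2]
            rw [integral_add s1 i2, integral_add (integrable_inv_one_add_sq.const_mul _) (s1.const_mul _),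
              q1, q2, s2]
    rw [abs_le]
    constructor
    · have : 0 ≤ 20 * Real.pi * κ ^ 2 := by positivity
      linarith
    · have e : 16 * κ ^ 2 * Real.pi + 2 * κ * (2 * Real.pi * κ) = 20 * Real.pi * κ ^ 2 := by ring
      linarith
  have hmass2 : ∫ y, hh κ σ y ≤ 7 * Real.pi * κ := by
    have := (abs_le.1 hmass).2
    have h2 : 20 * Real.pi * κ ^ 2 ≤ 5 * Real.pi * κ := by nlinarith [mul_pos hpi hκ]
    linarith
  have hmass0 : 0 ≤ ∫ y, hh κ σ y := integral_nonneg fun y => hh_nonneg _ _ _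
  -- the logarithms
  have key : ∀ᵐ y : ℝ, (1 + Real.log (2 * κ + |κ * y|) ^ 2) * hh κ σ y ≤ κ ^ 2 * Psi (κ * y) := by
    have h0 : ∀ᵐ x : ℝ, x ≠ 0 := by
      rw [ae_iff]
      simp
    filter_upwards [h0] with y hy
    have h1 := hh_cauchy hκ hκ1 hσ hσ1 y
    have h2 := Psi_ge hκ hκ1 (x := κ * y) (mul_ne_zero hκ.ne' hy)
    have h3 : 0 ≤ 1 + Real.log (2 * κ + |κ * y|) ^ 2 := by positivity
    calc (1 + Real.log (2 * κ + |κ * y|) ^ 2) * hh κ σ y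
        ≤ (1 + Real.log (2 * κ + |κ * y|) ^ 2) * (κ ^ 2 * (13 * (1 + (κ * y) ^ 2)⁻¹)) :=
          mul_le_mul_of_nonneg_left h1 h3
      _ = κ ^ 2 * ((13 * (1 + (κ * y) ^ 2)⁻¹) * (1 + Real.log (2 * κ + |κ * y|) ^ 2)) := by ring
      _ ≤ _ := mul_le_mul_of_nonneg_left h2 (by positivity)
  have hPI := hscaleI Psi Psi_int
  have hPe := hscale Psi
  rw [← hc] at hPe
  have hlc : Continuous fun y : ℝ => Real.log (2 + |y|) := by
    refine Continuous.log (by fun_prop) fun y => ?_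
    positivity
  have hkc : Continuous fun y : ℝ => Real.log (2 * κ + |κ * y|) := by
    refine Continuous.log (by fun_prop) fun y => ?_
    positivity
  have iL2 : Integrable fun y : ℝ => Real.log (2 * κ + |κ * y|) ^ 2 * hh κ σ y := by
    refine hPI.mono' ((hkc.pow 2).mul hcont).aestronglyMeasurable ?_
    filter_upwards [key] with y hy
    have h1 := hh_nonneg κ σ y
    rw [Real.norm_of_nonneg (by positivity)]
    refine le_trans ?_ hy
    nlinarith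
  have iL1 : Integrable fun y : ℝ => Real.log (2 * κ + |κ * y|) * hh κ σ y := by
    refine hPI.mono' (hkc.mul hcont).aestronglyMeasurable ?_
    filter_upwards [key] with y hy
    have h1 := hh_nonneg κ σ y
    rw [norm_mul, Real.norm_of_nonneg h1, Real.norm_eq_abs]
    refine le_trans (mul_le_mul_of_nonneg_right ?_ h1) hy
    have := sq_nonneg (|Real.log (2 * κ + |κ * y|)| - 1)
    rw [← sq_abs (Real.log (2 * κ + |κ * y|))]
    nlinarith [abs_nonneg (Real.log (2 * κ + |κ * y|)), sq_nonneg (|Real.log (2 * κ + |κ * y|)|)]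
  have bL1 : |∫ y : ℝ, Real.log (2 * κ + |κ * y|) * hh κ σ y| ≤ κ * c := by
    rw [← hPe, ← Real.norm_eq_abs]
    refine norm_integral_le_of_norm_le hPI ?_
    filter_upwards [key] with y hy
    have h1 := hh_nonneg κ σ y
    rw [norm_mul, Real.norm_of_nonneg h1, Real.norm_eq_abs]
    refine le_trans (mul_le_mul_of_nonneg_right ?_ h1) hy
    rw [← sq_abs (Real.log (2 * κ + |κ * y|))]
    nlinarith [abs_nonneg (Real.log (2 * κ + |κ * y|)), sq_nonneg (|Real.log (2 * κ + |κ * y|)|),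
      sq_nonneg (|Real.log (2 * κ + |κ * y|)| - 1)]
  have bL2 : ∫ y : ℝ, Real.log (2 * κ + |κ * y|) ^ 2 * hh κ σ y ≤ κ * c := by
    rw [← hPe]
    refine integral_mono_ae iL2 hPI ?_
    filter_upwards [key] with y hy
    have h1 := hh_nonneg κ σ y
    refine le_trans ?_ hy
    nlinarith
  refine ⟨⟨hcont, hhI, ?_⟩, ⟨?_, ?_⟩, ⟨?_, ?_⟩, fun y => hh_low hκ hκ1 hσ hσ1 y, fun y => ?_,
    fun σ' y h1 h2 => hh_mono hκ h1 h2 hσ1 y⟩
  · refine hmass.trans (mul_le_mul_of_nonneg_right ?_ (by positivity))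
    nlinarith
  · have : (fun y => Real.log (2 + |y|) * hh κ σ y) =
        fun y => LL κ * hh κ σ y + Real.log (2 * κ + |κ * y|) * hh κ σ y := by
      funext y
      rw [log_split hκ]
      ring
    rw [this]
    exact (hhI.const_mul _).add iL1
  · have : (fun y => Real.log (2 + |y|) * hh κ σ y) =
        fun y => LL κ * hh κ σ y + Real.log (2 * κ + |κ * y|) * hh κ σ y := by
      funext y
      rw [log_split hκ]
      ring
    rw [this, integral_add (hhI.const_mul _) iL1, integral_const_mul]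
    have e : LL κ * (∫ y, hh κ σ y) + (∫ y, Real.log (2 * κ + |κ * y|) * hh κ σ y) - 2 * Real.pi * κ * LL κ =
        LL κ * ((∫ y, hh κ σ y) - 2 * Real.pi * κ) + ∫ y, Real.log (2 * κ + |κ * y|) * hh κ σ y := by ring
    rw [e]
    refine (abs_add_le _ _).trans ?_
    rw [abs_mul, abs_of_nonneg (by linarith : (0 : ℝ) ≤ LL κ)]
    have h1 : LL κ * |(∫ y, hh κ σ y) - 2 * Real.pi * κ| ≤ 20 * Real.pi * κ := by
      calc LL κ * |(∫ y, hh κ σ y) - 2 * Real.pi * κ| ≤ LL κ * (20 * Real.pi * κ ^ 2) :=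
            mul_le_mul_of_nonneg_left hmass (by linarith)
        _ = 20 * Real.pi * κ * (κ * LL κ) := by ring
        _ ≤ 20 * Real.pi * κ * 1 := mul_le_mul_of_nonneg_left hkLL (by positivity)
        _ = _ := by ring
    have h2 : (4 * c + 100 * Real.pi + 13) * κ = κ * c + 20 * Real.pi * κ + (3 * c + 80 * Real.pi + 13) * κ := by
      ring
    rw [h2]
    have h3 : 0 ≤ (3 * c + 80 * Real.pi + 13) * κ := by positivity
    linarith
  · have : (fun y => Real.log (2 + |y|) ^ 2 * hh κ σ y) =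
        fun y => (LL κ ^ 2 * hh κ σ y + 2 * LL κ * (Real.log (2 * κ + |κ * y|) * hh κ σ y)) +
          Real.log (2 * κ + |κ * y|) ^ 2 * hh κ σ y := by
      funext y
      rw [log_split hκ]
      ring
    rw [this]
    exact ((hhI.const_mul _).add (iL1.const_mul _)).add iL2
  · have : (fun y => Real.log (2 + |y|) ^ 2 * hh κ σ y) =
        fun y => (LL κ ^ 2 * hh κ σ y + 2 * LL κ * (Real.log (2 * κ + |κ * y|) * hh κ σ y)) +
          Real.log (2 * κ + |κ * y|) ^ 2 * hh κ σ y := by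
      funext y
      rw [log_split hκ]
      ring
    have iS : Integrable fun y => LL κ ^ 2 * hh κ σ y + 2 * LL κ * (Real.log (2 * κ + |κ * y|) * hh κ σ y) :=
      (hhI.const_mul _).add (iL1.const_mul _)
    rw [this, integral_add iS iL2,
      integral_add (hhI.const_mul _) (iL1.const_mul _), integral_const_mul, integral_const_mul]
    have h1 : LL κ ^ 2 * ∫ y, hh κ σ y ≤ LL κ ^ 2 * (7 * Real.pi * κ) :=
      mul_le_mul_of_nonneg_left hmass2 (by positivity)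
    have h2 : 2 * LL κ * (∫ y, Real.log (2 * κ + |κ * y|) * hh κ σ y) ≤ 2 * LL κ * (κ * c) :=
      mul_le_mul_of_nonneg_left ((le_abs_self _).trans bL1) (by positivity)
    have h3 : 2 * LL κ * (κ * c) ≤ 2 * LL κ ^ 2 * (κ * c) := by
      refine mul_le_mul_of_nonneg_right ?_ (by positivity)
      nlinarith
    have h4 : κ * c ≤ LL κ ^ 2 * (κ * c) := by
      have : 1 ≤ LL κ ^ 2 := by nlinarith
      have h5 : 0 ≤ κ * c := by positivity
      nlinarith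
    have h5 : (4 * c + 100 * Real.pi + 13) * κ * LL κ ^ 2 = LL κ ^ 2 * (7 * Real.pi * κ) +
        2 * LL κ ^ 2 * (κ * c) + LL κ ^ 2 * (κ * c) + (c + 93 * Real.pi + 13) * κ * LL κ ^ 2 := by ring
    rw [h5]
    have h6 : 0 ≤ (c + 93 * Real.pi + 13) * κ * LL κ ^ 2 := by positivity
    linarith
  · refine (hh_cauchy hκ hκ1 hσ hσ1 y).trans ?_
    have e : κ ^ 2 * (13 * (1 + (κ * y) ^ 2)⁻¹) = 13 / ((1 / κ) ^ 2 + y ^ 2) := by
      field_simp
    rw [e]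
    refine div_le_div_of_nonneg_right ?_ (by positivity)
    nlinarith

end Q227.CP
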